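import Mathlib

open Complex Filter Topology Set MeasureTheory

namespace Pool.Agent.H388LH

/-- the closed half-strip `a ≤ Re s ≤ b`, `c ≤ Im s` -/
def HS (a b c : ℝ) : Set ℂ := {s | a ≤ s.re ∧ s.re ≤ b ∧ c ≤ s.im}

/-- Phragmen-Lindelof in a half-strip. -/
theorem pl_half {a b c : ℝ} (hab : a < b) {f : ℂ → ℂ}
    (hd : ∀ s ∈ HS a b c, DifferentiableAt ℂ f s) {M : ℝ} (hM : 0 < M)
    (h1 : ∀ s ∈ HS a b c, s.re = a → ‖f s‖ ≤ M)
    (h2 : ∀ s ∈ HS a b c, s.re = b → ‖f s‖ ≤ M)
    (h3 : ∀ s ∈ HS a b c, s.im = c → ‖f s‖ ≤ M)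
    (hg : ∃ A : ℝ, ∃ N : ℕ, ∀ s ∈ HS a b c, ‖f s‖ ≤ Real.exp (A * (1 + |s.im|) ^ N)) :
    ∀ s ∈ HS a b c, ‖f s‖ ≤ M := by
  obtain ⟨A, N, hA⟩ := hg
  intro s hs
  set β : ℝ := 1 / (b - a) with hβ
  have hβ0 : 0 < β := by
    rw [hβ]; exact one_div_pos.2 (by linarith)
  set m : ℝ := (a + b) / 2 with hm
  -- the auxiliary function
  set E : ℂ → ℂ := fun z => cexp (-(I * β * (z - m))) with hE
  have hEre : ∀ z : ℂ, (E z).re = Real.exp (β * z.im) * Real.cos (β * (z.re - m)) := by
    intro z
    have : -(I * β * (z - m)) = ((β * z.im : ℝ) : ℂ) + ((-(β * (z.re - m)) : ℝ) : ℂ) * I := by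
      apply Complex.ext <;> simp
    rw [hE]
    simp only
    rw [this, Complex.exp_add, ← Complex.ofReal_exp, Complex.re_ofReal_mul,
      Complex.exp_ofReal_mul_I_re, Real.cos_neg]
  have hcos : ∀ z ∈ HS a b c, 1 / 2 ≤ Real.cos (β * (z.re - m)) := by
    intro z hz
    have h4 : |β * (z.re - m)| ≤ 1 / 2 := by
      rw [abs_mul, abs_of_pos hβ0, hβ]
      have h5 : |z.re - m| ≤ (b - a) / 2 := by
        rw [abs_le]
        obtain ⟨h6, h7, _⟩ := hz
        constructor <;> (rw [hm]; linarith)
      calc 1 / (b - a) * |z.re - m| ≤ 1 / (b - a) * ((b - a) / 2) := by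
            apply mul_le_mul_of_nonneg_left h5
            exact (one_div_pos.2 (by linarith)).le
        _ = 1 / 2 := by
          have : b - a ≠ 0 := by linarith
          field_simp
    have h8 := Real.one_sub_sq_div_two_le_cos (x := β * (z.re - m))
    have h9 : (β * (z.re - m)) ^ 2 ≤ 1 / 4 := by
      rw [← sq_abs]
      nlinarith [abs_nonneg (β * (z.re - m))]
    linarith
  have hEge : ∀ z ∈ HS a b c, Real.exp (β * z.im) / 2 ≤ (E z).re := by
    intro z hz
    rw [hEre]
    have := hcos z hz
    have h10 := Real.exp_pos (β * z.im)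
    nlinarith
  -- main bound with ε
  have key : ∀ ε : ℝ, 0 < ε → ‖f s * cexp (-(ε * E s))‖ ≤ M := by
    intro ε hε
    -- choose T1 large
    have hlim : Tendsto (fun T : ℝ => A * (1 + |T|) ^ N - ε * (Real.exp (β * T) / 2)) atTop atBot := by
      have h11 : Tendsto (fun T : ℝ => Real.exp (β * T) / T ^ N) atTop atTop := by
        have := tendsto_exp_mul_div_rpow_atTop (N : ℝ) β hβ0
        refine this.congr' ?_
        filter_upwards [eventually_gt_atTop 0] with T hT
        rw [Real.rpow_natCast]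
      have h12 : Tendsto (fun T : ℝ => ε / 2 * (Real.exp (β * T) / T ^ N) - |A| * 2 ^ N) atTop atTop := by
        apply tendsto_atTop_add_const_right
        exact h11.const_mul_atTop (by positivity)
      have h13 : Tendsto (fun T : ℝ => T ^ N * (ε / 2 * (Real.exp (β * T) / T ^ N) - |A| * 2 ^ N)) atTop atTop := by
        apply tendsto_atTop_mono' atTop _ h12
        filter_upwards [eventually_ge_atTop 1, h12.eventually_ge_atTop 0] with T hT hT2
        have : (1:ℝ) ≤ T ^ N := one_le_pow₀ hT
        nlinarith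
      have h14 := tendsto_neg_atTop_atBot.comp h13
      apply tendsto_atBot_mono' atTop _ h14
      filter_upwards [eventually_ge_atTop 1] with T hT
      simp only [Function.comp]
      have h15 : (1 + |T|) ^ N ≤ 2 ^ N * T ^ N := by
        rw [← mul_pow]
        apply pow_le_pow_left₀ (by positivity)
        rw [abs_of_pos (by linarith)]
        linarith
      have h16 : A * (1 + |T|) ^ N ≤ |A| * (2 ^ N * T ^ N) := by
        calc A * (1 + |T|) ^ N ≤ |A| * (1 + |T|) ^ N := by
              apply mul_le_mul_of_nonneg_right (le_abs_self A) (by positivity)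
          _ ≤ |A| * (2 ^ N * T ^ N) := mul_le_mul_of_nonneg_left h15 (abs_nonneg A)
      have h17 : T ^ N ≠ 0 := by positivity
      have h18 : T ^ N * (ε / 2 * (Real.exp (β * T) / T ^ N) - |A| * 2 ^ N) =
          ε * (Real.exp (β * T) / 2) - |A| * (2 ^ N * T ^ N) := by
        field_simp
      rw [h18]
      linarith
    have hev := hlim.eventually_le_atBot (Real.log M)
    obtain ⟨T1, hT1a, hT1b⟩ := (hev.and (eventually_gt_atTop (max c s.im))).exists
    have hcT : c < T1 := (le_max_left _ _).trans_lt hT1b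
    have hsT : s.im < T1 := (le_max_right _ _).trans_lt hT1b
    set U : Set ℂ := Ioo a b ×ℂ Ioo c T1 with hU
    have hUcl : closure U = Icc a b ×ℂ Icc c T1 := by
      rw [hU, closure_reProdIm, closure_Ioo hab.ne, closure_Ioo hcT.ne]
    have hUHS : ∀ z ∈ closure U, z ∈ HS a b c ∧ z.im ≤ T1 := by
      intro z hz
      rw [hUcl, mem_reProdIm] at hz
      exact ⟨⟨hz.1.1, hz.1.2, hz.2.1⟩, hz.2.2⟩
    have hgd : ∀ z ∈ HS a b c, DifferentiableAt ℂ (fun z => f z * cexp (-(ε * E z))) z := by
      intro z hz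
      apply DifferentiableAt.mul (hd z hz)
      rw [hE]
      fun_prop
    apply Complex.norm_le_of_forall_mem_frontier_norm_le (U := U)
      (f := fun z => f z * cexp (-(ε * E z)))
    · exact (Metric.isBounded_Ioo a b).reProdIm (Metric.isBounded_Ioo c T1)
    · apply DifferentiableOn.diffContOnCl
      intro z hz
      exact (hgd z (hUHS z hz).1).differentiableWithinAt
    · intro z hz
      have hz' := hUHS z (frontier_subset_closure hz)
      rw [hU, frontier_reProdIm, frontier_Ioo hab, frontier_Ioo hcT] at hz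
      have hnorm : ‖f z * cexp (-(ε * E z))‖ = ‖f z‖ * Real.exp (-(ε * (E z).re)) := by
        rw [norm_mul, Complex.norm_exp]
        congr 2
        simp
      rw [hnorm]
      have hE1 := hEge z hz'.1
      have hE2 := Real.exp_pos (β * z.im)
      have hle1 : Real.exp (-(ε * (E z).re)) ≤ 1 := by
        rw [Real.exp_le_one_iff]
        have : 0 ≤ ε * (E z).re := mul_nonneg hε.le (by linarith)
        linarith
      have hsimple : ‖f z‖ ≤ M → ‖f z‖ * Real.exp (-(ε * (E z).re)) ≤ M := by
        intro h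
        calc ‖f z‖ * Real.exp (-(ε * (E z).re)) ≤ ‖f z‖ * 1 :=
              mul_le_mul_of_nonneg_left hle1 (norm_nonneg _)
          _ ≤ M := by rw [mul_one]; exact h
      rcases hz with hz | hz
      · rw [mem_reProdIm] at hz
        rcases hz.2 with h | h
        · exact hsimple (h3 z hz'.1 h)
        · -- top side
          have hzT : z.im = T1 := h
          have hb := hA z hz'.1
          calc ‖f z‖ * Real.exp (-(ε * (E z).re))
              ≤ Real.exp (A * (1 + |z.im|) ^ N) * Real.exp (-(ε * (Real.exp (β * z.im) / 2))) := by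
                apply mul_le_mul hb _ (Real.exp_pos _).le (Real.exp_pos _).le
                apply Real.exp_le_exp.2
                have := mul_le_mul_of_nonneg_left hE1 hε.le
                linarith
            _ = Real.exp (A * (1 + |T1|) ^ N - ε * (Real.exp (β * T1) / 2)) := by
                rw [← Real.exp_add, hzT]; rfl
            _ ≤ Real.exp (Real.log M) := Real.exp_le_exp.2 hT1a
            _ = M := Real.exp_log hM
      · rw [mem_reProdIm] at hz
        rcases hz.1 with h | h
        · exact hsimple (h1 z hz'.1 h)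
        · exact hsimple (h2 z hz'.1 h)
    · rw [hUcl, mem_reProdIm]
      exact ⟨⟨hs.1, hs.2.1⟩, hs.2.2, hsT.le⟩
  -- let ε → 0
  have hlim : Tendsto (fun ε : ℝ => ‖f s * cexp (-(ε * E s))‖) (𝓝[>] 0) (𝓝 ‖f s * cexp (-((0:ℝ) * E s))‖) := by
    have : Continuous (fun ε : ℝ => ‖f s * cexp (-(ε * E s))‖) := by fun_prop
    exact this.continuousWithinAt.tendsto
  have h0 : ‖f s * cexp (-((0:ℝ) * E s))‖ = ‖f s‖ := by simp
  rw [h0] at hlim
  refine le_of_tendsto hlim ?_
  filter_upwards [self_mem_nhdsWithin] with ε hε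
  exact key ε hε

end Pool.Agent.H388LH
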