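import Mathlib
import Pool.Agent.H388LH.PL

open Complex Filter Topology Set MeasureTheory

namespace Pool.Agent.H388LH

/-- the comparison function `(-i s)^b` -/
noncomputable def V (b : ℝ) (s : ℂ) : ℂ := cexp (b * Complex.log (-I * s))

theorem V_norm {b : ℝ} {s : ℂ} (hs : s ≠ 0) : ‖V b s‖ = ‖s‖ ^ b := by
  unfold V
  rw [Complex.norm_exp]
  have h1 : (-I * s) ≠ 0 := by simp [hs]
  have h2 : ((b : ℂ) * Complex.log (-I * s)).re = b * Real.log ‖s‖ := by
    rw [Complex.re_ofReal_mul, Complex.log_re]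
    simp
  rw [h2, Real.rpow_def_of_pos (norm_pos_iff.2 hs), mul_comm]

theorem V_diff {b : ℝ} {s : ℂ} (hs : 0 < s.im) : DifferentiableAt ℂ (V b) s := by
  unfold V
  apply DifferentiableAt.cexp
  apply DifferentiableAt.const_mul
  apply DifferentiableAt.clog
  · fun_prop
  · left
    simp [hs]

theorem V_re {b : ℝ} (hb : 0 ≤ b) {s : ℂ} (hs0 : 0 < s.re) (hs2 : s.re ≤ 2) (hi : 1 ≤ s.im)
    (hi' : 4 * b ≤ s.im) : ‖s‖ ^ b / 2 ≤ (V b s).re := by
  have hsn : s ≠ 0 := by intro h; rw [h] at hs0; simp at hs0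
  have hpos : 0 < ‖s‖ := norm_pos_iff.2 hsn
  have h1 : (b : ℂ) * Complex.log (-I * s) = ((b * Real.log ‖s‖ : ℝ) : ℂ) + ((b * arg (-I * s) : ℝ) : ℂ) * I := by
    rw [Complex.log]
    simp
    ring
  have h2 : (V b s).re = ‖s‖ ^ b * Real.cos (b * arg (-I * s)) := by
    unfold V
    rw [h1, Complex.exp_add, ← Complex.ofReal_exp, Complex.re_ofReal_mul, Complex.exp_ofReal_mul_I_re,
      Real.rpow_def_of_pos hpos, mul_comm (Real.log ‖s‖)]
  have harg : |arg (-I * s)| ≤ 4 / s.im := by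
    have h3 : |arg (-I * s)| ≤ Real.pi / 2 := by
      rw [Complex.abs_arg_le_pi_div_two_iff]
      simp
      linarith
    have h4 := Real.mul_le_sin (abs_nonneg (arg (-I * s))) h3
    have h5 : Real.sin |arg (-I * s)| = |Real.sin (arg (-I * s))| := by
      rcases le_total 0 (arg (-I * s)) with h | h
      · rw [abs_of_nonneg h, abs_of_nonneg]
        apply Real.sin_nonneg_of_nonneg_of_le_pi h (Complex.arg_le_pi _)
      · rw [abs_of_nonpos h, Real.sin_neg, abs_of_nonpos]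
        apply Real.sin_nonpos_of_nonpos_of_neg_pi_le h (Complex.neg_pi_lt_arg _).le
    rw [h5, Complex.sin_arg] at h4
    have h6 : (-I * s).im = -s.re := by simp
    have h7 : ‖-I * s‖ = ‖s‖ := by simp
    rw [h6, h7, abs_div, abs_neg, abs_of_pos hs0, abs_of_pos hpos] at h4
    have h8 : s.re / ‖s‖ ≤ 2 / s.im := by
      apply div_le_div₀ (by norm_num) hs2 (by linarith) (Complex.im_le_norm s)
    have hpi := Real.pi_pos
    have hpi4 := Real.pi_le_four
    have h9 : |arg (-I * s)| = Real.pi / 2 * (2 / Real.pi * |arg (-I * s)|) := by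
      field_simp
    rw [h9]
    calc Real.pi / 2 * (2 / Real.pi * |arg (-I * s)|) ≤ Real.pi / 2 * (2 / s.im) := by
          apply mul_le_mul_of_nonneg_left (h4.trans h8); positivity
      _ ≤ 4 / s.im := by
          have : 0 < s.im := by linarith
          rw [div_mul_div_comm, div_le_div_iff₀ (by positivity) this]
          nlinarith
  have hx : |b * arg (-I * s)| ≤ 1 := by
    rw [abs_mul, abs_of_nonneg hb]
    calc b * |arg (-I * s)| ≤ b * (4 / s.im) := mul_le_mul_of_nonneg_left harg hb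
      _ = 4 * b / s.im := by ring
      _ ≤ 1 := div_le_one_of_le₀ hi' (by linarith)
  have hcos : 1 / 2 ≤ Real.cos (b * arg (-I * s)) := by
    have h3 := Real.one_sub_sq_div_two_le_cos (x := b * arg (-I * s))
    have h4 : (b * arg (-I * s)) ^ 2 ≤ 1 := by
      rw [← sq_abs]
      nlinarith [abs_nonneg (b * arg (-I * s))]
    linarith
  rw [h2]
  have := Real.rpow_nonneg hpos.le b
  nlinarith

/-- a one-sided bound on the critical line propagates to the right -/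
theorem one_sided_right {g : ℂ → ℂ} (hg : ∀ s : ℂ, 0 < s.im → DifferentiableAt ℂ g s)
    {B : ℝ} (hB : 0 ≤ B) {N : ℕ} (h2 : ∀ s : ℂ, 2 ≤ s.re → 1 ≤ s.im → ‖g s‖ ≤ B)
    (hgr : ∀ s : ℂ, 1 / 2 ≤ s.re → s.re ≤ 2 → 1 ≤ s.im → ‖g s‖ ≤ B * ‖s‖ ^ N)
    (ω : ℂ) {b C : ℝ} (hb : 0 ≤ b) (hC : 0 ≤ C)
    (hos : ∀ T : ℝ, 1 ≤ T → (ω * g (1 / 2 + T * I)).re ≤ C * T ^ b) :
    ∃ C' T0 : ℝ, 0 < C' ∧ 1 ≤ T0 ∧ ∀ s : ℂ, 1 / 2 ≤ s.re → T0 ≤ s.im → (ω * g s).re ≤ C' * ‖s‖ ^ b := by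
  set T0 : ℝ := max 1 (4 * b) with hT0
  have hT01 : 1 ≤ T0 := le_max_left _ _
  have hT0b : 4 * b ≤ T0 := le_max_right _ _
  set M0 : ℝ := ‖ω‖ * B * (2 + T0) ^ N with hM0
  have hM00 : 0 ≤ M0 := by positivity
  have hωB : ‖ω‖ * B ≤ M0 := by
    rw [hM0]
    have : (1:ℝ) ≤ (2 + T0) ^ N := one_le_pow₀ (by linarith)
    have h3 : 0 ≤ ‖ω‖ * B := by positivity
    nlinarith
  have hnorm1 : ∀ s : ℂ, T0 ≤ s.im → 1 ≤ ‖s‖ := fun s hs => (hT01.trans hs).trans (Complex.im_le_norm s)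
  set H : ℂ → ℂ := fun s => ω * g s - 2 * C * V b s with hH
  have hHre : ∀ s : ℂ, (H s).re = (ω * g s).re - 2 * C * (V b s).re := by
    intro s
    rw [hH]
    simp only [Complex.sub_re]
    congr 1
    have : (2 * (C:ℂ) * V b s) = ((2 * C : ℝ) : ℂ) * V b s := by push_cast; ring
    rw [this, Complex.re_ofReal_mul]
  have hVre : ∀ s ∈ HS (1 / 2) 2 T0, ‖s‖ ^ b / 2 ≤ (V b s).re := by
    intro s hs
    obtain ⟨h3, h4, h5⟩ := hs
    exact V_re hb (by linarith) h4 (hT01.trans h5) (hT0b.trans h5)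
  have hVre0 : ∀ s ∈ HS (1 / 2) 2 T0, 0 ≤ (V b s).re := by
    intro s hs
    have := hVre s hs
    have h6 := Real.rpow_nonneg (norm_nonneg s) b
    linarith
  have hle : ∀ s : ℂ, (ω * g s).re ≤ ‖ω‖ * ‖g s‖ := by
    intro s
    rw [← norm_mul]
    exact Complex.re_le_norm _
  have hpl := pl_half (a := 1 / 2) (b := 2) (c := T0) (by norm_num) (f := fun s => cexp (H s))
    (by
      intro s hs
      have hsi : 0 < s.im := by have := hs.2.2; linarith
      apply DifferentiableAt.cexp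
      rw [hH]
      exact ((hg s hsi).const_mul _).sub ((V_diff hsi).const_mul _))
    (M := Real.exp M0) (Real.exp_pos _)
    (by
      intro s hs hs1
      rw [Complex.norm_exp, Real.exp_le_exp, hHre]
      have e1 : s = 1 / 2 + (s.im : ℂ) * I := by
        apply Complex.ext
        · simp [hs1]
        · simp
      have h7 := hos s.im (hT01.trans hs.2.2)
      rw [← e1] at h7
      have h8 := hVre s hs
      have h9 : s.im ^ b ≤ ‖s‖ ^ b := by
        apply Real.rpow_le_rpow _ (Complex.im_le_norm s) hb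
        have := hs.2.2; linarith
      nlinarith)
    (by
      intro s hs hs2
      rw [Complex.norm_exp, Real.exp_le_exp, hHre]
      have h7 := h2 s hs2.ge (hT01.trans hs.2.2)
      have h8 := hVre0 s hs
      have h9 := hle s
      have h10 : ‖ω‖ * ‖g s‖ ≤ ‖ω‖ * B := mul_le_mul_of_nonneg_left h7 (norm_nonneg _)
      nlinarith)
    (by
      intro s hs hs3
      rw [Complex.norm_exp, Real.exp_le_exp, hHre]
      have h7 := hgr s hs.1 hs.2.1 (hT01.trans hs.2.2)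
      have h8 := hVre0 s hs
      have h9 := hle s
      have h11 : ‖s‖ ≤ 2 + T0 := by
        have := Complex.norm_le_abs_re_add_abs_im s
        rw [abs_of_pos (by linarith [hs.1] : 0 < s.re), hs3, abs_of_pos (by linarith)] at this
        linarith [hs.2.1]
      have h12 : ‖s‖ ^ N ≤ (2 + T0) ^ N := pow_le_pow_left₀ (norm_nonneg _) h11 N
      have h10 : ‖ω‖ * ‖g s‖ ≤ M0 := by
        calc ‖ω‖ * ‖g s‖ ≤ ‖ω‖ * (B * (2 + T0) ^ N) := by
              apply mul_le_mul_of_nonneg_left _ (norm_nonneg _)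
              exact h7.trans (mul_le_mul_of_nonneg_left h12 hB)
          _ = M0 := by rw [hM0]; ring
      nlinarith)
    (by
      refine ⟨‖ω‖ * B * 2 ^ N, N, fun s hs => ?_⟩
      rw [Complex.norm_exp, Real.exp_le_exp, hHre]
      have h7 := hgr s hs.1 hs.2.1 (hT01.trans hs.2.2)
      have h8 := hVre0 s hs
      have h9 := hle s
      have h11 : ‖s‖ ≤ 2 * (1 + |s.im|) := by
        have := Complex.norm_le_abs_re_add_abs_im s
        rw [abs_of_pos (by linarith [hs.1] : 0 < s.re)] at this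
        have h13 := abs_nonneg s.im
        linarith [hs.2.1]
      have h12 : ‖s‖ ^ N ≤ 2 ^ N * (1 + |s.im|) ^ N := by
        rw [← mul_pow]
        exact pow_le_pow_left₀ (norm_nonneg _) h11 N
      have h10 : ‖ω‖ * ‖g s‖ ≤ ‖ω‖ * B * 2 ^ N * (1 + |s.im|) ^ N := by
        calc ‖ω‖ * ‖g s‖ ≤ ‖ω‖ * (B * (2 ^ N * (1 + |s.im|) ^ N)) := by
              apply mul_le_mul_of_nonneg_left _ (norm_nonneg _)
              exact h7.trans (mul_le_mul_of_nonneg_left h12 hB)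
          _ = _ := by ring
      nlinarith)
  refine ⟨M0 + 2 * C + 1, T0, by positivity, hT01, fun s hs1 hs2 => ?_⟩
  have hn1 := hnorm1 s hs2
  have hn2 : (1:ℝ) ≤ ‖s‖ ^ b := Real.one_le_rpow hn1 hb
  rcases le_total s.re 2 with h3 | h3
  · have hmem : s ∈ HS (1 / 2) 2 T0 := ⟨hs1, h3, hs2⟩
    have h4 := hpl s hmem
    rw [Complex.norm_exp, Real.exp_le_exp, hHre] at h4
    have h5 : (V b s).re ≤ ‖s‖ ^ b := by
      rw [← V_norm (b := b) (s := s) (by intro h; rw [h] at hn1; norm_num at hn1)]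
      exact Complex.re_le_norm _
    nlinarith
  · have h4 := h2 s h3 (hT01.trans hs2)
    have h5 := hle s
    have h6 : ‖ω‖ * ‖g s‖ ≤ ‖ω‖ * B := mul_le_mul_of_nonneg_left h4 (norm_nonneg _)
    nlinarith

/-- from one-sided to two-sided bounds via Borel-Caratheodory -/
theorem one_sided_two_sided {g : ℂ → ℂ} (hg : ∀ s : ℂ, 0 < s.im → DifferentiableAt ℂ g s)
    {B : ℝ} (hB : 0 ≤ B) {N : ℕ} (h2 : ∀ s : ℂ, 2 ≤ s.re → 1 ≤ s.im → ‖g s‖ ≤ B)
    (hgr : ∀ s : ℂ, 1 / 2 ≤ s.re → s.re ≤ 2 → 1 ≤ s.im → ‖g s‖ ≤ B * ‖s‖ ^ N)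
    (ω : ℂ) (hω : ω ≠ 0) {b C : ℝ} (hb : 0 ≤ b) (hC : 0 ≤ C)
    (hos : ∀ T : ℝ, 1 ≤ T → (ω * g (1 / 2 + T * I)).re ≤ C * T ^ b)
    {δ : ℝ} (hδ0 : 0 < δ) (hδ1 : δ < 1 / 4) :
    ∃ C1 T1 : ℝ, 0 ≤ C1 ∧ 1 ≤ T1 ∧ ∀ s : ℂ, s.re = 1 / 2 + δ → T1 ≤ s.im →
      ‖g s‖ ≤ C1 * s.im ^ b ∧ ‖deriv g s‖ ≤ C1 * s.im ^ b := by
  obtain ⟨C', T0, hC', hT0, hmain⟩ := one_sided_right hg hB h2 hgr ω hb hC hos
  have hωn : 0 < ‖ω‖ := norm_pos_iff.2 hω
  -- constant
  set K : ℝ := (6 * (C' * 5 ^ b) + 6 * (‖ω‖ * B)) / (δ * ‖ω‖) with hK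
  have hK0 : 0 ≤ K := by positivity
  refine ⟨K + K / (δ / 2), T0 + 2, by positivity, by linarith, fun s hs1 hs2 => ?_⟩
  set T : ℝ := s.im with hT
  have hT1 : 1 ≤ T := by linarith
  set s1 : ℂ := 2 + T * I with hs1'
  have hs1re : s1.re = 2 := by rw [hs1']; simp
  have hs1im : s1.im = T := by rw [hs1']; simp
  set M : ℝ := C' * 5 ^ b * T ^ b with hM
  have hMpos : 0 < M := by positivity
  have hTb : (1:ℝ) ≤ T ^ b := Real.one_le_rpow hT1 hb
  -- BC
  have hbc : ∀ z : ℂ, ‖z‖ ≤ 3 / 2 - δ / 2 → ‖g (s1 + z)‖ ≤ K * T ^ b := by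
    intro z hz
    have hpos : ∀ w : ℂ, w ∈ Metric.ball (0:ℂ) (3 / 2) → 1 / 2 ≤ (s1 + w).re ∧ T0 ≤ (s1 + w).im ∧
        ‖s1 + w‖ ≤ 5 * T := by
      intro w hw
      rw [mem_ball_zero_iff] at hw
      have h3 := (abs_le.1 ((Complex.abs_re_le_norm w).trans hw.le)).1
      have h4 := (abs_le.1 ((Complex.abs_im_le_norm w).trans hw.le)).1
      refine ⟨?_, ?_, ?_⟩
      · rw [Complex.add_re, hs1re]; linarith
      · rw [Complex.add_im, hs1im]; linarith
      · have h5 : ‖s1‖ ≤ 2 + T := by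
          have := Complex.norm_le_abs_re_add_abs_im s1
          rw [hs1re, hs1im, abs_of_pos (by linarith : 0 < T)] at this
          simpa using this
        calc ‖s1 + w‖ ≤ ‖s1‖ + ‖w‖ := norm_add_le _ _
          _ ≤ 5 * T := by linarith
    have h3 := Complex.borelCaratheodory (f := fun w => ω * g (s1 + w)) (M := M) (R := 3 / 2) (z := z)
      hMpos (by
        intro w hw
        apply DifferentiableAt.differentiableWithinAt
        apply DifferentiableAt.const_mul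
        apply DifferentiableAt.comp (f := fun w => s1 + w)
        · apply hg
          have := (hpos w hw).2.1
          linarith
        · fun_prop) (by
        intro w hw
        obtain ⟨h4, h5, h6⟩ := hpos w hw
        have h7 := hmain (s1 + w) h4 h5
        simp only [Set.mem_setOf_eq]
        refine h7.trans ?_
        rw [hM, mul_assoc]
        apply mul_le_mul_of_nonneg_left _ hC'.le
        rw [← Real.mul_rpow (by norm_num) (by linarith)]
        exact Real.rpow_le_rpow (norm_nonneg _) h6 hb) (by norm_num) (by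
        rw [mem_ball_zero_iff]; linarith)
    simp only [add_zero] at h3
    rw [norm_mul, norm_mul] at h3
    have h4 : ‖g s1‖ ≤ B := h2 s1 hs1re.ge (by rw [hs1im]; exact hT1)
    have hz0 := norm_nonneg z
    have h5 : δ / 2 ≤ 3 / 2 - ‖z‖ := by linarith
    have h6 : 2 * M * ‖z‖ / (3 / 2 - ‖z‖) ≤ 6 * M / δ := by
      rw [div_le_div_iff₀ (by linarith) hδ0]
      nlinarith [mul_le_mul_of_nonneg_left h5 (by positivity : 0 ≤ 6 * M),
        mul_le_mul_of_nonneg_right (by linarith : ‖z‖ ≤ 3 / 2) (by positivity : 0 ≤ 2 * M * δ)]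
    have h7 : ‖ω‖ * ‖g s1‖ * (3 / 2 + ‖z‖) / (3 / 2 - ‖z‖) ≤ 6 * (‖ω‖ * B) / δ := by
      rw [div_le_div_iff₀ (by linarith) hδ0]
      have h8 : ‖ω‖ * ‖g s1‖ ≤ ‖ω‖ * B := mul_le_mul_of_nonneg_left h4 hωn.le
      have h9 : 0 ≤ ‖ω‖ * B := by positivity
      have h10 : ‖ω‖ * ‖g s1‖ * (3 / 2 + ‖z‖) ≤ ‖ω‖ * B * 3 := by
        apply mul_le_mul h8 (by linarith) (by linarith) h9
      nlinarith [mul_le_mul_of_nonneg_left h5 (by positivity : 0 ≤ 6 * (‖ω‖ * B))]
    have h11 : ‖ω‖ * ‖g (s1 + z)‖ ≤ (6 * M + 6 * (‖ω‖ * B)) / δ := by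
      calc ‖ω‖ * ‖g (s1 + z)‖ ≤ _ := h3
        _ ≤ 6 * M / δ + 6 * (‖ω‖ * B) / δ := add_le_add h6 h7
        _ = _ := by ring
    have h12 : (6 * M + 6 * (‖ω‖ * B)) / δ ≤ ‖ω‖ * (K * T ^ b) := by
      have e : ‖ω‖ * (K * T ^ b) = (6 * (C' * 5 ^ b) * T ^ b + 6 * (‖ω‖ * B) * T ^ b) / δ := by
        rw [hK]
        field_simp
      rw [e, hM]
      apply div_le_div_of_nonneg_right _ hδ0.le
      have : 0 ≤ 6 * (‖ω‖ * B) := by positivity
      nlinarith
    exact le_of_mul_le_mul_left (h11.trans h12) hωn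
  have hz0 : s = s1 + (((-(3 / 2 - δ) : ℝ)) : ℂ) := by
    apply Complex.ext
    · rw [Complex.add_re, hs1re, Complex.ofReal_re, hs1]; ring
    · rw [Complex.add_im, hs1im, Complex.ofReal_im, add_zero]
  have hnz0 : ‖(((-(3 / 2 - δ) : ℝ)) : ℂ)‖ = 3 / 2 - δ := by
    rw [Complex.norm_real, Real.norm_eq_abs, abs_neg, abs_of_pos (by linarith)]
  have hKd : 0 ≤ K / (δ / 2) := by positivity
  constructor
  · have h3 := hbc _ (by rw [hnz0]; linarith : ‖(((-(3 / 2 - δ) : ℝ)) : ℂ)‖ ≤ 3 / 2 - δ / 2)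
    rw [← hz0] at h3
    refine h3.trans ?_
    apply mul_le_mul_of_nonneg_right _ (by positivity)
    linarith
  · have h3 := Complex.norm_deriv_le_of_forall_mem_sphere_norm_le (f := g) (c := s) (R := δ / 2)
      (C := K * T ^ b) (by linarith) (by
        apply DifferentiableOn.diffContOnCl
        intro w hw
        apply DifferentiableAt.differentiableWithinAt
        apply hg
        rw [closure_ball _ (by linarith : δ / 2 ≠ 0), mem_closedBall_iff_norm] at hw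
        have := (abs_le.1 ((Complex.abs_im_le_norm (w - s)).trans hw)).1
        rw [Complex.sub_im] at this
        linarith) (by
        intro w hw
        rw [mem_sphere_iff_norm] at hw
        have e : w = s1 + ((w - s) + (((-(3 / 2 - δ) : ℝ)) : ℂ)) := by
          rw [hz0]; ring
        rw [e]
        apply hbc
        calc ‖(w - s) + (((-(3 / 2 - δ) : ℝ)) : ℂ)‖ ≤ ‖w - s‖ + ‖(((-(3 / 2 - δ) : ℝ)) : ℂ)‖ := norm_add_le _ _
          _ ≤ 3 / 2 - δ / 2 := by rw [hw, hnz0]; linarith)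
    refine h3.trans ?_
    have e : K * T ^ b / (δ / 2) = K / (δ / 2) * T ^ b := by ring
    rw [e]
    apply mul_le_mul_of_nonneg_right _ (by positivity)
    linarith

end Pool.Agent.H388LH
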