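import Mathlib
import Pool.Agent.Helper240.ZU.A1

open Complex Filter Topology Set MeasureTheory

namespace Pool.Agent.H388LH

/-- crude bound for the integral in the formula for zeta -/
theorem fract_int_bound {s : ℂ} (hs : 0 < s.re) :
    ‖∫ u in Ioi (1 : ℝ), ((Int.fract u : ℝ) : ℂ) * (u : ℂ) ^ (-s - 1)‖ ≤ 1 / s.re := by
  have h1 : ∫ u in Ioi (1:ℝ), (u : ℝ) ^ (-s.re - 1) = 1 / s.re := by
    rw [integral_Ioi_rpow_of_lt (by linarith) one_pos, Real.one_rpow]
    have : s.re ≠ 0 := hs.ne'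
    have h2 : -s.re - 1 + 1 ≠ 0 := by
      intro h; apply this; linarith
    field_simp
    ring
  rw [← h1]
  apply norm_integral_le_of_norm_le
  · exact integrableOn_Ioi_rpow_of_lt (by linarith) one_pos
  · rw [ae_restrict_iff' measurableSet_Ioi]
    refine Filter.Eventually.of_forall (fun u hu => ?_)
    have hu0 : (0:ℝ) < u := lt_trans one_pos hu
    rw [norm_mul, Complex.norm_real, Real.norm_eq_abs, Int.abs_fract,
      Complex.norm_cpow_eq_rpow_re_of_pos hu0]
    have h3 : (-s - 1).re = -s.re - 1 := by simp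
    rw [h3]
    calc Int.fract u * u ^ (-s.re - 1) ≤ 1 * u ^ (-s.re - 1) := by
          apply mul_le_mul_of_nonneg_right (Int.fract_lt_one u).le
          positivity
      _ = u ^ (-s.re - 1) := one_mul _

theorem zeta_eq {s : ℂ} (hs : 0 < s.re) (hs1 : s ≠ 1) :
    riemannZeta s = 1 + 1 / (s - 1) -
      s * ∫ u in Ioi (1 : ℝ), ((Int.fract u : ℝ) : ℂ) * (u : ℂ) ^ (-s - 1) := by
  have h := ZU.J_a1.zeta_formula 1 le_rfl s hs hs1
  rw [h]
  simp [ZU.DN]

/-- growth for `Im s ≥ 1` -/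
theorem zeta_growth {s : ℂ} (hs : 1 / 4 ≤ s.re) (hi : 1 ≤ s.im) : ‖riemannZeta s‖ ≤ 6 * ‖s‖ := by
  have hs0 : 0 < s.re := by linarith
  have hs1 : s ≠ 1 := by intro h; rw [h] at hi; norm_num at hi
  rw [zeta_eq hs0 hs1]
  have h1 := fract_int_bound hs0
  have hn1 : 1 ≤ ‖s‖ := hi.trans (Complex.im_le_norm s)
  have hn2 : 1 ≤ ‖s - 1‖ := by
    have := Complex.im_le_norm (s - 1)
    simp at this
    linarith
  have h2 : ‖1 / (s - 1)‖ ≤ 1 := by
    rw [norm_div, norm_one]
    exact div_le_one_of_le₀ hn2 (norm_nonneg _)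
  have h3 : 1 / s.re ≤ 4 := by
    rw [div_le_iff₀ hs0]; linarith
  calc ‖1 + 1 / (s - 1) - s * ∫ u in Ioi (1 : ℝ), ((Int.fract u : ℝ) : ℂ) * (u : ℂ) ^ (-s - 1)‖
      ≤ ‖(1:ℂ)‖ + ‖1 / (s - 1)‖ + ‖s‖ * ‖∫ u in Ioi (1 : ℝ), ((Int.fract u : ℝ) : ℂ) * (u : ℂ) ^ (-s - 1)‖ := by
        rw [← norm_mul]
        exact (norm_sub_le _ _).trans (add_le_add_left (norm_add_le _ _) _)
    _ ≤ 1 + 1 + ‖s‖ * 4 := by
        rw [norm_one]
        gcongr
        exact h1.trans h3
    _ ≤ 6 * ‖s‖ := by linarith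

/-- growth in the strip `1/4 ≤ Re s ≤ 3/4` -/
theorem zeta_growth' {s : ℂ} (hs : 1 / 4 ≤ s.re) (hs' : s.re ≤ 3 / 4) :
    ‖riemannZeta s‖ ≤ 9 * (1 + |s.im|) := by
  have hs0 : 0 < s.re := by linarith
  have hs1 : s ≠ 1 := by intro h; rw [h] at hs'; norm_num at hs'
  rw [zeta_eq hs0 hs1]
  have h1 := fract_int_bound hs0
  have hn2 : 1 / 4 ≤ ‖s - 1‖ := by
    have := Complex.abs_re_le_norm (s - 1)
    simp at this
    have h4 := neg_abs_le (s.re - 1)
    linarith
  have h2 : ‖1 / (s - 1)‖ ≤ 4 := by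
    rw [norm_div, norm_one, div_le_iff₀ (by linarith)]
    linarith
  have h3 : 1 / s.re ≤ 4 := by
    rw [div_le_iff₀ hs0]; linarith
  have h5 : ‖s‖ ≤ 3 / 4 + |s.im| := by
    have := Complex.norm_le_abs_re_add_abs_im s
    rw [abs_of_pos hs0] at this
    linarith
  calc ‖1 + 1 / (s - 1) - s * ∫ u in Ioi (1 : ℝ), ((Int.fract u : ℝ) : ℂ) * (u : ℂ) ^ (-s - 1)‖
      ≤ ‖(1:ℂ)‖ + ‖1 / (s - 1)‖ + ‖s‖ * ‖∫ u in Ioi (1 : ℝ), ((Int.fract u : ℝ) : ℂ) * (u : ℂ) ^ (-s - 1)‖ := by
        rw [← norm_mul]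
        exact (norm_sub_le _ _).trans (add_le_add_left (norm_add_le _ _) _)
    _ ≤ 1 + 4 + (3 / 4 + |s.im|) * 4 := by
        rw [norm_one]
        gcongr
        exact h1.trans h3
    _ ≤ 9 * (1 + |s.im|) := by
        have := abs_nonneg s.im
        linarith

theorem diffAt_zeta_im {s : ℂ} (hs : 0 < s.im) : DifferentiableAt ℂ riemannZeta s := by
  apply differentiableAt_riemannZeta
  intro h
  rw [h] at hs
  simp at hs

/-- interpolation: bounds to the right of the critical line give bounds on the critical line. -/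
theorem to_critical {β : ℝ} (hβ : 0 ≤ β)
    (h : ∀ δ : ℝ, 0 < δ → δ < 1 / 4 → ∃ C : ℝ, ∀ t : ℝ,
      ‖riemannZeta ((1 / 2 + δ : ℝ) + t * I)‖ ≤ C * (1 + |t|) ^ β) :
    ∀ ε : ℝ, 0 < ε → ∃ C : ℝ, ∀ t : ℝ,
      ‖riemannZeta (1 / 2 + t * I)‖ ≤ C * (1 + |t|) ^ (β + ε) := by
  intro ε hε
  set δ : ℝ := min (1 / 8) (ε / 4) with hδ
  have hδ0 : 0 < δ := lt_min (by norm_num) (by linarith)
  have hδ1 : δ < 1 / 4 := (min_le_left _ _).trans_lt (by norm_num)
  have hδ2 : 4 * δ ≤ ε := by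
    have := min_le_right (1 / 8) (ε / 4)
    linarith
  obtain ⟨C, hC⟩ := h δ hδ0 hδ1
  have hC0 : 0 ≤ C := by
    have := (norm_nonneg _).trans (hC 0)
    simpa using this
  -- a constant bounding (1+|y|)^(β+1) exp(-y^2)
  obtain ⟨D, hD⟩ : ∃ D : ℝ, ∀ y : ℝ, (1 + |y|) ^ (β + 1) * Real.exp (-y ^ 2) ≤ D := by
    have h1 : Tendsto (fun y : ℝ => y ^ (β + 1) * Real.exp (-y)) atTop (𝓝 0) := by
      have := tendsto_rpow_mul_exp_neg_mul_atTop_nhds_zero (β + 1) 1 one_pos
      simpa using this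
    have h2 : ∃ D : ℝ, ∀ y : ℝ, 1 ≤ y → y ^ (β + 1) * Real.exp (-y) ≤ D := by
      have h3 : ∀ᶠ y in atTop, y ^ (β + 1) * Real.exp (-y) ≤ 1 :=
        (h1.eventually (gt_mem_nhds one_pos)).mono (fun _ h => le_of_lt h)
      obtain ⟨Y, hY⟩ := eventually_atTop.1 h3
      have h4 : ContinuousOn (fun y : ℝ => y ^ (β + 1) * Real.exp (-y)) (Icc 1 Y) := by
        apply ContinuousOn.mul
        · apply ContinuousOn.rpow_const continuousOn_id
          intro x _; right; linarith
        · fun_prop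
      obtain ⟨D, hD⟩ := isCompact_Icc.exists_bound_of_continuousOn h4
      refine ⟨max D 1, fun y hy => ?_⟩
      rcases le_total y Y with h5 | h5
      · exact ((le_abs_self _).trans (hD y ⟨hy, h5⟩)).trans (le_max_left _ _)
      · exact (hY y h5).trans (le_max_right _ _)
    obtain ⟨D, hD⟩ := h2
    refine ⟨D * Real.exp 2, fun y => ?_⟩
    have h6 := hD (1 + |y|) (by linarith [abs_nonneg y])
    have h7 : Real.exp (-y ^ 2) ≤ Real.exp (-(1 + |y|)) * Real.exp 2 := by
      rw [← Real.exp_add]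
      apply Real.exp_le_exp.2
      have : y ^ 2 = |y| ^ 2 := (sq_abs y).symm
      nlinarith [sq_nonneg (|y| - 1 / 2)]
    calc (1 + |y|) ^ (β + 1) * Real.exp (-y ^ 2)
        ≤ (1 + |y|) ^ (β + 1) * (Real.exp (-(1 + |y|)) * Real.exp 2) := by
          apply mul_le_mul_of_nonneg_left h7; positivity
      _ = ((1 + |y|) ^ (β + 1) * Real.exp (-(1 + |y|))) * Real.exp 2 := by ring
      _ ≤ D * Real.exp 2 := by
          apply mul_le_mul_of_nonneg_right h6 (Real.exp_pos _).le
  have hD0 : 0 ≤ D := le_trans (by positivity) (hD 0)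
  have hsplit : ∀ (γ : ℝ), 0 ≤ γ → ∀ T y : ℝ, (1 + |y + T|) ^ γ ≤ (1 + |T|) ^ γ * (1 + |y|) ^ γ := by
    intro γ hγ T y
    rw [← Real.mul_rpow (by positivity) (by positivity)]
    apply Real.rpow_le_rpow (by positivity) _ hγ
    have := abs_add_le y T
    nlinarith [abs_nonneg y, abs_nonneg T, mul_nonneg (abs_nonneg y) (abs_nonneg T)]
  set A : ℝ := (9 + C) * (D * Real.exp 1) with hA
  have hA0 : 0 ≤ A := by positivity
  refine ⟨A + 1, fun T => ?_⟩
  set F : ℂ → ℂ := fun z => riemannZeta (z + T * I) * cexp ((z - 1 / 2) ^ 2) with hF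
  have hexp : ∀ z : ℂ, 1 / 4 ≤ z.re → z.re ≤ 3 / 4 → ‖cexp ((z - 1 / 2) ^ 2)‖ ≤ Real.exp 1 * Real.exp (-z.im ^ 2) := by
    intro z h1 h2
    rw [Complex.norm_exp, ← Real.exp_add]
    apply Real.exp_le_exp.2
    have : ((z - 1 / 2) ^ 2).re = (z.re - 1 / 2) ^ 2 - z.im ^ 2 := by
      rw [sq, Complex.mul_re]
      simp
      ring
    rw [this]
    nlinarith
  have hT1 : (1:ℝ) ≤ 1 + |T| := by linarith [abs_nonneg T]
  -- general bound for F in the strip
  have hFb : ∀ z : ℂ, 1 / 4 ≤ z.re → z.re ≤ 3 / 4 → ‖F z‖ ≤ A * (1 + |T|) := by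
    intro z h1 h2
    rw [hF]
    simp only
    rw [norm_mul]
    have e1 : (z + T * I).re = z.re := by simp
    have e2 : (z + T * I).im = z.im + T := by simp
    have g1 := zeta_growth' (s := z + T * I) (by rw [e1]; exact h1) (by rw [e1]; exact h2)
    rw [e2] at g1
    have g2 := hexp z h1 h2
    have g3 : 1 + |z.im + T| ≤ (1 + |T|) * (1 + |z.im|) := by
      have := abs_add_le z.im T
      nlinarith [abs_nonneg z.im, abs_nonneg T, mul_nonneg (abs_nonneg z.im) (abs_nonneg T)]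
    have g4 : (1 + |z.im|) * Real.exp (-z.im ^ 2) ≤ D := by
      refine le_trans ?_ (hD z.im)
      apply mul_le_mul_of_nonneg_right _ (Real.exp_pos _).le
      calc 1 + |z.im| = (1 + |z.im|) ^ (1:ℝ) := (Real.rpow_one _).symm
        _ ≤ (1 + |z.im|) ^ (β + 1) := by
          apply Real.rpow_le_rpow_of_exponent_le (by linarith [abs_nonneg z.im]) (by linarith)
    calc ‖riemannZeta (z + T * I)‖ * ‖cexp ((z - 1 / 2) ^ 2)‖
        ≤ (9 * ((1 + |T|) * (1 + |z.im|))) * (Real.exp 1 * Real.exp (-z.im ^ 2)) := by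
          apply mul_le_mul _ g2 (norm_nonneg _) (by positivity)
          exact g1.trans (by linarith)
      _ = 9 * ((1 + |z.im|) * Real.exp (-z.im ^ 2)) * Real.exp 1 * (1 + |T|) := by ring
      _ ≤ 9 * D * Real.exp 1 * (1 + |T|) := by
          gcongr
      _ ≤ A * (1 + |T|) := by
          apply mul_le_mul_of_nonneg_right _ (by positivity)
          rw [hA]
          have : 0 ≤ C * (D * Real.exp 1) := by positivity
          nlinarith
  have hFr : ∀ z : ℂ, z.re = 1 / 2 + δ → ‖F z‖ ≤ A * (1 + |T|) ^ β := by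
    intro z hz
    rw [hF]
    simp only
    rw [norm_mul]
    have e1 : z + T * I = ((1 / 2 + δ : ℝ) : ℂ) + ((z.im + T : ℝ) : ℂ) * I := by
      apply Complex.ext
      · simp [hz]
      · simp
    have g1 := hC (z.im + T)
    rw [← e1] at g1
    have g2 := hexp z (by rw [hz]; linarith) (by rw [hz]; linarith)
    have g4 : (1 + |z.im|) ^ β * Real.exp (-z.im ^ 2) ≤ D := by
      refine le_trans ?_ (hD z.im)
      apply mul_le_mul_of_nonneg_right _ (Real.exp_pos _).le
      apply Real.rpow_le_rpow_of_exponent_le (by linarith [abs_nonneg z.im]) (by linarith)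
    calc ‖riemannZeta (z + T * I)‖ * ‖cexp ((z - 1 / 2) ^ 2)‖
        ≤ (C * ((1 + |T|) ^ β * (1 + |z.im|) ^ β)) * (Real.exp 1 * Real.exp (-z.im ^ 2)) := by
          apply mul_le_mul _ g2 (norm_nonneg _) (by positivity)
          exact g1.trans (mul_le_mul_of_nonneg_left (hsplit β hβ T z.im) hC0)
      _ = C * ((1 + |z.im|) ^ β * Real.exp (-z.im ^ 2)) * Real.exp 1 * (1 + |T|) ^ β := by ring
      _ ≤ C * D * Real.exp 1 * (1 + |T|) ^ β := by
          gcongr
      _ ≤ A * (1 + |T|) ^ β := by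
          apply mul_le_mul_of_nonneg_right _ (by positivity)
          rw [hA]
          have : 0 ≤ D * Real.exp 1 := by positivity
          nlinarith
  -- three lines
  have h3 := Complex.HadamardThreeLines.norm_le_interp_of_mem_verticalClosedStrip' (f := F)
    (z := (1 / 2 : ℂ)) (l := 1 / 4) (u := 1 / 2 + δ) (a := A * (1 + |T|)) (b := A * (1 + |T|) ^ β)
    (by linarith) (by
      simp only [Complex.HadamardThreeLines.verticalClosedStrip, mem_preimage, mem_Icc]
      norm_num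
      linarith) (by
      apply DifferentiableOn.diffContOnCl
      intro z hz
      have hz' : z.re ∈ Icc (1 / 4) (1 / 2 + δ) := by
        have h5 : closure (Complex.HadamardThreeLines.verticalStrip (1 / 4) (1 / 2 + δ)) ⊆
            re ⁻¹' Icc (1 / 4) (1 / 2 + δ) := by
          apply closure_minimal
          · intro w hw
            exact Ioo_subset_Icc_self hw
          · exact isClosed_Icc.preimage Complex.continuous_re
        exact h5 hz
      apply DifferentiableAt.differentiableWithinAt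
      apply DifferentiableAt.mul
      · apply DifferentiableAt.comp (f := fun z : ℂ => z + T * I)
        · apply differentiableAt_riemannZeta
          intro h6
          have h7 := congrArg Complex.re h6
          simp at h7
          have := hz'.2
          linarith
        · fun_prop
      · fun_prop) (by
      refine ⟨A * (1 + |T|), ?_⟩
      rintro _ ⟨z, hz, rfl⟩
      exact hFb z hz.1 (hz.2.trans (by linarith))) (by
      intro z hz
      have hz' : z.re = 1 / 4 := hz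
      exact hFb z (by rw [hz']) (by rw [hz']; norm_num)) (by
      intro z hz
      exact hFr z hz)
  have e3 : F (1 / 2) = riemannZeta (1 / 2 + T * I) := by
    rw [hF]; simp
  rw [e3] at h3
  refine h3.trans ?_
  have e4 : ((1 / 2 : ℂ).re) = 1 / 2 := by norm_num
  rw [e4]
  set θ : ℝ := (1 / 2 - 1 / 4) / (1 / 2 + δ - 1 / 4) with hθ
  have hθ1 : θ ≤ 1 := by
    rw [hθ, div_le_one (by linarith)]; linarith
  have hθ0 : 0 ≤ θ := by
    rw [hθ]; apply div_nonneg <;> linarith
  have hθ2 : 1 - θ ≤ 4 * δ := by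
    rw [hθ]
    have h5 : 1 - (1 / 2 - 1 / 4) / (1 / 2 + δ - 1 / 4) = δ / (1 / 4 + δ) := by
      have h7 : (1 / 2 + δ - 1 / 4 : ℝ) = 1 / 4 + δ := by ring
      have h6 : (1 / 4 + δ : ℝ) ≠ 0 := by linarith
      rw [h7, eq_div_iff h6, sub_mul, div_mul_cancel₀ _ h6]
      ring
    rw [h5, div_le_iff₀ (by linarith)]
    nlinarith
  rw [Real.mul_rpow hA0 (by positivity), Real.mul_rpow hA0 (by positivity), ← Real.rpow_mul (by positivity)]
  calc A ^ (1 - θ) * (1 + |T|) ^ (1 - θ) * (A ^ θ * (1 + |T|) ^ (β * θ))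
      = (A ^ (1 - θ) * A ^ θ) * ((1 + |T|) ^ (1 - θ) * (1 + |T|) ^ (β * θ)) := by ring
    _ ≤ (A + 1) * (1 + |T|) ^ (β + ε) := by
        apply mul_le_mul
        · rcases eq_or_lt_of_le hA0 with h8 | h8
          · rw [← h8]
            rcases eq_or_lt_of_le hθ0 with h9 | h9
            · rw [← h9]; simp
            · rw [Real.zero_rpow h9.ne']; simp
          · rw [← Real.rpow_add h8, sub_add_cancel, Real.rpow_one]
            linarith
        · rw [← Real.rpow_add (by positivity)]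
          apply Real.rpow_le_rpow_of_exponent_le hT1
          nlinarith
        · positivity
        · positivity

end Pool.Agent.H388LH
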