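import Mathlib
import Pool.Agent.H388LH.ZG
import Pool.Agent.H388LH.OS

open Complex Filter Topology Set MeasureTheory

namespace Pool.Agent.H388LH

theorem two_rpow_bound {n : ℕ} {σ : ℝ} (hσ : 2 ≤ σ) :
    ((n : ℝ) + 2) ^ (-σ) ≤ 1 / ((n : ℝ) + 2) ^ 2 * (4 * Real.exp (-σ / 2)) := by
  have hn : (0:ℝ) < (n:ℝ) + 2 := by positivity
  have h1 : ((n : ℝ) + 2) ^ (-σ) = ((n:ℝ) + 2) ^ (-(2:ℝ)) * ((n:ℝ) + 2) ^ (-(σ - 2)) := by
    rw [← Real.rpow_add hn]; congr 1; ring
  rw [h1]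
  have h2 : ((n:ℝ) + 2) ^ (-(2:ℝ)) = 1 / ((n : ℝ) + 2) ^ 2 := by
    rw [Real.rpow_neg hn.le]
    norm_num
  rw [h2]
  apply mul_le_mul_of_nonneg_left _ (by positivity)
  have h3 : ((n:ℝ) + 2) ^ (-(σ - 2)) ≤ (2:ℝ) ^ (-(σ - 2)) := by
    apply Real.rpow_le_rpow_of_nonpos (by norm_num) _ (by linarith)
    have : (0:ℝ) ≤ n := Nat.cast_nonneg n
    linarith
  have h4 : (2:ℝ) ^ (-(σ - 2)) = 4 * (2:ℝ) ^ (-σ) := by
    have : -(σ - 2) = 2 + -σ := by ring
    rw [this, Real.rpow_add (by norm_num)]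
    norm_num
  have h5 : (2:ℝ) ^ (-σ) ≤ Real.exp (-σ / 2) := by
    rw [Real.rpow_def_of_pos (by norm_num)]
    apply Real.exp_le_exp.2
    have := Real.log_two_gt_d9
    nlinarith
  rw [h4] at h3
  linarith

/-- `ζ(s) - 1` decays exponentially to the right -/
theorem zeta_sub_one : ∃ D : ℝ, 0 ≤ D ∧ ∀ s : ℂ, 2 ≤ s.re → ‖riemannZeta s - 1‖ ≤ D * Real.exp (-s.re / 2) := by
  have hsum : Summable (fun n : ℕ => 1 / ((n : ℝ) + 2) ^ 2) := by
    have h1 : Summable (fun n : ℕ => 1 / ((n : ℝ)) ^ 2) := Real.summable_one_div_nat_pow.2 (by norm_num)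
    have := (summable_nat_add_iff 2).2 h1
    simpa using this
  refine ⟨(∑' n : ℕ, 1 / ((n : ℝ) + 2) ^ 2) * 4, by positivity, fun s hs => ?_⟩
  have hs1 : 1 < s.re := by linarith
  have hz := zeta_eq_tsum_one_div_nat_add_one_cpow hs1
  have hsm : Summable (fun n : ℕ => 1 / ((n : ℂ) + 1) ^ s) := by
    have := (summable_nat_add_iff 1).2 (Complex.summable_one_div_nat_cpow.2 hs1)
    simpa using this
  rw [hz, hsm.tsum_eq_zero_add]
  have e0 : (1 : ℂ) / (((0 : ℕ) : ℂ) + 1) ^ s = 1 := by simp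
  rw [e0, add_sub_cancel_left]
  have hb : ∀ n : ℕ, ‖(1 : ℂ) / (((n + 1 : ℕ) : ℂ) + 1) ^ s‖ ≤ 1 / ((n : ℝ) + 2) ^ 2 * (4 * Real.exp (-s.re / 2)) := by
    intro n
    have e1 : (((n + 1 : ℕ) : ℂ) + 1) = (((n : ℝ) + 2 : ℝ) : ℂ) := by push_cast; ring
    rw [e1, norm_div, norm_one, Complex.norm_cpow_eq_rpow_re_of_pos (by positivity), one_div,
      ← Real.rpow_neg (by positivity)]
    exact two_rpow_bound hs
  calc ‖∑' n : ℕ, (1 : ℂ) / (((n + 1 : ℕ) : ℂ) + 1) ^ s‖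
      ≤ ∑' n : ℕ, 1 / ((n : ℝ) + 2) ^ 2 * (4 * Real.exp (-s.re / 2)) :=
        tsum_of_norm_bounded (hsum.mul_right _).hasSum hb
    _ = (∑' n : ℕ, 1 / ((n : ℝ) + 2) ^ 2) * 4 * Real.exp (-s.re / 2) := by
        rw [tsum_mul_right]; ring

/-- `ζ(s)^k - 1` decays exponentially to the right -/
theorem zeta_pow_sub_one (k : ℕ) : ∃ D : ℝ, 0 ≤ D ∧ ∀ s : ℂ, 2 ≤ s.re →
    ‖riemannZeta s ^ k - 1‖ ≤ D * Real.exp (-s.re / 2) := by
  obtain ⟨D, hD, h⟩ := zeta_sub_one
  refine ⟨D * (k * (1 + D) ^ k), by positivity, fun s hs => ?_⟩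
  have h1 := h s hs
  have h2 : ‖riemannZeta s‖ ≤ 1 + D := by
    have h3 : Real.exp (-s.re / 2) ≤ 1 := by
      rw [Real.exp_le_one_iff]; linarith
    calc ‖riemannZeta s‖ = ‖1 + (riemannZeta s - 1)‖ := by congr 1; ring
      _ ≤ ‖(1:ℂ)‖ + ‖riemannZeta s - 1‖ := norm_add_le _ _
      _ ≤ 1 + D := by
        rw [norm_one]
        nlinarith
  rw [← mul_geom_sum, norm_mul]
  have h4 : ‖∑ i ∈ Finset.range k, riemannZeta s ^ i‖ ≤ k * (1 + D) ^ k := by
    refine (norm_sum_le _ _).trans ?_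
    have : ∀ i ∈ Finset.range k, ‖riemannZeta s ^ i‖ ≤ (1 + D) ^ k := by
      intro i hi
      rw [norm_pow]
      calc ‖riemannZeta s‖ ^ i ≤ (1 + D) ^ i := pow_le_pow_left₀ (norm_nonneg _) h2 i
        _ ≤ (1 + D) ^ k := pow_le_pow_right₀ (by linarith) (Finset.mem_range.1 hi).le
    refine (Finset.sum_le_sum this).trans ?_
    simp
  calc ‖riemannZeta s - 1‖ * ‖∑ i ∈ Finset.range k, riemannZeta s ^ i‖
      ≤ (D * Real.exp (-s.re / 2)) * (k * (1 + D) ^ k) := by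
        apply mul_le_mul h1 h4 (norm_nonneg _) (by positivity)
    _ = _ := by ring

/-- the function `ζ^k - 1` -/
noncomputable def fk (k : ℕ) (s : ℂ) : ℂ := riemannZeta s ^ k - 1

theorem fk_diff (k : ℕ) {s : ℂ} (hs : 0 < s.im) : DifferentiableAt ℂ (fk k) s := by
  unfold fk
  exact ((diffAt_zeta_im hs).pow k).sub_const 1

/-- a primitive of `ζ^k - 1` on the upper half plane with its basic bounds -/
theorem exists_prim (k : ℕ) : ∃ G : ℂ → ℂ, (∀ s : ℂ, 0 < s.im → HasDerivAt G (fk k s) s) ∧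
    ∃ B : ℝ, 0 ≤ B ∧ (∀ s : ℂ, 2 ≤ s.re → 1 ≤ s.im → ‖G s‖ ≤ B) ∧
      (∀ s : ℂ, 1 / 2 ≤ s.re → s.re ≤ 2 → 1 ≤ s.im → ‖G s‖ ≤ B * ‖s‖ ^ k) ∧
      (∀ (M : ℝ) (s : ℂ), 1 / 2 ≤ s.re → s.re ≤ 2 → 1 ≤ s.im →
        (∀ z : ℂ, 1 / 2 ≤ z.re → z.re ≤ 2 → z.im = s.im → ‖fk k z‖ ≤ M) → ‖G s‖ ≤ B + 2 * M) := by
  have hconv : Convex ℝ {s : ℂ | 0 < s.im} := convex_halfSpace_im_gt 0
  have hopen : IsOpen {s : ℂ | 0 < s.im} := isOpen_lt continuous_const Complex.continuous_im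
  obtain ⟨G, hG⟩ := hconv.exists_forall_hasDerivWithinAt (f := fk k)
    (fun s hs => (fk_diff k hs).differentiableWithinAt)
  have hGd : ∀ s : ℂ, 0 < s.im → HasDerivAt G (fk k s) s := fun s hs =>
    (hG s hs).hasDerivAt (hopen.mem_nhds hs)
  obtain ⟨D, hD0, hD⟩ := zeta_pow_sub_one k
  -- horizontal bound
  have hhor : ∀ (T σ x : ℝ), 1 ≤ T → 2 ≤ σ → σ ≤ x → ‖G (x + T * I) - G (σ + T * I)‖ ≤ 2 * D := by
    intro T σ x hT hσ hx
    have hder : ∀ u : ℝ, HasDerivAt (fun u : ℝ => G (u + T * I) - G (σ + T * I)) (fk k (u + T * I)) u := by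
      intro u
      have h1 : HasDerivAt (fun z : ℂ => z + T * I) 1 (u : ℂ) := (hasDerivAt_id _).add_const _
      have h2 : HasDerivAt G (fk k (u + T * I)) ((u : ℂ) + T * I) := hGd _ (by simp; linarith)
      have h3 := (h2.comp (u : ℂ) h1).comp_ofReal
      have h4 := h3.sub_const (G (σ + T * I))
      simpa using h4
    have h5 := image_norm_le_of_norm_deriv_right_le_deriv_boundary
      (f := fun u : ℝ => G (u + T * I) - G (σ + T * I)) (f' := fun u : ℝ => fk k (u + T * I))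
      (a := σ) (b := x)
      (fun u _ => (hder u).continuousAt.continuousWithinAt)
      (fun u _ => (hder u).hasDerivWithinAt)
      (B := fun u => 2 * D * (Real.exp (-σ / 2) - Real.exp (-u / 2)))
      (B' := fun u => D * Real.exp (-u / 2))
      (by simp)
      (by
        intro u
        have h6 : HasDerivAt (fun u : ℝ => -u / 2) (-1 / 2) u := by
          simpa using ((hasDerivAt_id u).neg.div_const 2)
        have h7 := ((h6.exp.const_sub (Real.exp (-σ / 2))).const_mul (2 * D))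
        have e : D * Real.exp (-u / 2) = 2 * D * -(Real.exp (-u / 2) * (-1 / 2)) := by ring
        rw [e]
        exact h7)
      (by
        intro u hu
        have := hD (u + T * I) (by simp; linarith [hu.1])
        simpa [fk] using this)
    have h8 := h5 (right_mem_Icc.2 hx)
    refine h8.trans ?_
    have h9 : Real.exp (-σ / 2) ≤ 1 := by rw [Real.exp_le_one_iff]; linarith
    have h10 := Real.exp_pos (-x / 2)
    nlinarith
  have hright : ∀ s : ℂ, 2 ≤ s.re → 1 ≤ s.im → ‖G s‖ ≤ ‖G (2 + I)‖ + 4 * D := by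
    intro s hs1 hs2
    have hx : ∀ x : ℝ, s.re ≤ x → ‖G s‖ ≤ ‖G (2 + I)‖ + 4 * D + D * Real.exp (-x / 2) * (s.im - 1) := by
      intro x hx
      have h1 := hhor s.im s.re x hs2 hs1 hx
      have h2 := hhor 1 2 x le_rfl le_rfl (hs1.trans hx)
      rw [Complex.re_add_im] at h1
      have h3 : ‖G (x + s.im * I) - G (x + (1:ℝ) * I)‖ ≤ D * Real.exp (-x / 2) * ‖((x : ℂ) + s.im * I) - (x + (1:ℝ) * I)‖ := by
        apply Convex.norm_image_sub_le_of_norm_hasDerivWithin_le (s := {z : ℂ | z.re = x ∧ 1 ≤ z.im})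
          (f := G) (f' := fk k)
        · intro z hz
          exact (hGd z (by linarith [hz.2])).hasDerivWithinAt
        · intro z hz
          have := hD z (by rw [hz.1]; linarith)
          rw [hz.1] at this
          exact this
        · have e : {z : ℂ | z.re = x ∧ 1 ≤ z.im} = {z : ℂ | z.re = x} ∩ {z : ℂ | 1 ≤ z.im} := rfl
          rw [e]
          exact (convex_hyperplane (f := Complex.re) ⟨Complex.add_re, fun c z => by simp⟩ x).inter
            (convex_halfSpace_im_ge 1)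
        · simp
        · simpa using hs2
      have e2 : ‖((x : ℂ) + s.im * I) - (x + (1:ℝ) * I)‖ = s.im - 1 := by
        have : ((x : ℂ) + s.im * I) - (x + (1:ℝ) * I) = ((s.im - 1 : ℝ) : ℂ) * I := by push_cast; ring
        rw [this, norm_mul, Complex.norm_I, mul_one, Complex.norm_real, Real.norm_eq_abs,
          abs_of_nonneg (by linarith)]
      rw [e2] at h3
      have e3 : ((2:ℝ) : ℂ) + (1:ℝ) * I = 2 + I := by push_cast; ring
      rw [e3] at h2
      calc ‖G s‖ = ‖G (2 + I) + (G (x + (1:ℝ) * I) - G (2 + I)) + (G (x + s.im * I) - G (x + (1:ℝ) * I))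
            - (G (x + s.im * I) - G s)‖ := by congr 1; ring
        _ ≤ ‖G (2 + I)‖ + ‖G (x + (1:ℝ) * I) - G (2 + I)‖ + ‖G (x + s.im * I) - G (x + (1:ℝ) * I)‖
            + ‖G (x + s.im * I) - G s‖ := by
              refine (norm_sub_le _ _).trans ?_
              gcongr
              refine (norm_add_le _ _).trans ?_
              gcongr
              exact norm_add_le _ _
        _ ≤ ‖G (2 + I)‖ + 4 * D + D * Real.exp (-x / 2) * (s.im - 1) := by linarith
    have hlim : Tendsto (fun x : ℝ => ‖G (2 + I)‖ + 4 * D + D * Real.exp (-x / 2) * (s.im - 1)) atTop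
        (𝓝 (‖G (2 + I)‖ + 4 * D + D * 0 * (s.im - 1))) := by
      apply Tendsto.const_add
      apply Tendsto.mul_const
      apply Tendsto.const_mul
      apply Real.tendsto_exp_atBot.comp
      have : Tendsto (fun x : ℝ => -(x / 2)) atTop atBot :=
        tendsto_neg_atTop_atBot.comp (tendsto_id.atTop_div_const (by norm_num))
      refine this.congr (fun x => ?_)
      ring
    have := ge_of_tendsto hlim (by
      filter_upwards [eventually_ge_atTop s.re] with x hx'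
      exact hx x hx')
    simpa using this
  have hgen : ∀ (M : ℝ) (s : ℂ), 1 / 2 ≤ s.re → s.re ≤ 2 → 1 ≤ s.im →
        (∀ z : ℂ, 1 / 2 ≤ z.re → z.re ≤ 2 → z.im = s.im → ‖fk k z‖ ≤ M) →
        ‖G s‖ ≤ (‖G (2 + I)‖ + 4 * D) + 2 * M := by
    intro M s h1 h2 h3 hM
    have hM0 : 0 ≤ M := (norm_nonneg _).trans (hM s h1 h2 rfl)
    have h4 : ‖G s - G (2 + s.im * I)‖ ≤ M * ‖s - (2 + s.im * I)‖ := by
      apply Convex.norm_image_sub_le_of_norm_hasDerivWithin_le
        (s := {z : ℂ | (1 / 2 ≤ z.re ∧ z.re ≤ 2) ∧ z.im = s.im}) (f := G) (f' := fk k)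
      · intro z hz
        exact (hGd z (by rw [hz.2]; linarith)).hasDerivWithinAt
      · intro z hz
        exact hM z hz.1.1 hz.1.2 hz.2
      · have e : {z : ℂ | (1 / 2 ≤ z.re ∧ z.re ≤ 2) ∧ z.im = s.im} =
            ({z : ℂ | 1 / 2 ≤ z.re} ∩ {z : ℂ | z.re ≤ 2}) ∩ {z : ℂ | z.im = s.im} := rfl
        rw [e]
        exact ((convex_halfSpace_re_ge _).inter (convex_halfSpace_re_le _)).inter
          (convex_hyperplane (f := Complex.im) ⟨Complex.add_im, fun c z => by simp⟩ _)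
      · constructor
        · constructor <;> norm_num
        · simp
      · exact ⟨⟨h1, h2⟩, rfl⟩
    have h5 : ‖s - (2 + s.im * I)‖ ≤ 2 := by
      have e : s - (2 + s.im * I) = ((s.re - 2 : ℝ) : ℂ) := by
        apply Complex.ext <;> simp
      rw [e, Complex.norm_real, Real.norm_eq_abs, abs_le]
      constructor <;> linarith
    have h6 := hright (2 + s.im * I) (by simp) (by simpa using h3)
    calc ‖G s‖ = ‖G (2 + s.im * I) + (G s - G (2 + s.im * I))‖ := by congr 1; ring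
      _ ≤ ‖G (2 + s.im * I)‖ + ‖G s - G (2 + s.im * I)‖ := norm_add_le _ _
      _ ≤ (‖G (2 + I)‖ + 4 * D) + M * 2 := by
          apply add_le_add h6
          exact h4.trans (mul_le_mul_of_nonneg_left h5 hM0)
      _ = _ := by ring
  refine ⟨G, hGd, ‖G (2 + I)‖ + 4 * D + 4 * 18 ^ k, by positivity, ?_, ?_, ?_⟩
  · intro s h1 h2
    have := hright s h1 h2
    have h3 : (0:ℝ) ≤ 4 * 18 ^ k := by positivity
    linarith
  · intro s h1 h2 h3
    have hs1 : 1 ≤ ‖s‖ := h3.trans (Complex.im_le_norm s)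
    have h4 := hgen (2 * 18 ^ k * ‖s‖ ^ k) s h1 h2 h3 (by
      intro z hz1 hz2 hz3
      have h5 := zeta_growth (s := z) (by linarith) (by rw [hz3]; exact h3)
      have h6 : ‖z‖ ≤ 3 * ‖s‖ := by
        have h7 := Complex.norm_le_abs_re_add_abs_im z
        rw [hz3, abs_of_pos (by linarith : 0 < z.re)] at h7
        have h8 := Complex.abs_im_le_norm s
        linarith
      unfold fk
      calc ‖riemannZeta z ^ k - 1‖ ≤ ‖riemannZeta z ^ k‖ + ‖(1:ℂ)‖ := norm_sub_le _ _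
        _ ≤ (18 * ‖s‖) ^ k + (18 * ‖s‖) ^ k := by
            rw [norm_pow, norm_one]
            apply add_le_add
            · apply pow_le_pow_left₀ (norm_nonneg _); linarith
            · apply one_le_pow₀; linarith
        _ = 2 * 18 ^ k * ‖s‖ ^ k := by rw [mul_pow]; ring)
    have h9 : (1:ℝ) ≤ ‖s‖ ^ k := one_le_pow₀ hs1
    have h10 : 0 ≤ ‖G (2 + I)‖ + 4 * D := by positivity
    nlinarith
  · intro M s h1 h2 h3 hM
    have := hgen M s h1 h2 h3 hM
    have h3 : (0:ℝ) ≤ 4 * 18 ^ k := by positivity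
    linarith

end Pool.Agent.H388LH
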