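import Mathlib
import Pool.Agent.H388LH.SM

open Complex Filter Topology Set MeasureTheory

namespace Pool.Agent.H388LH

theorem cont_zeta_line : Continuous (fun t : ℝ => riemannZeta (1 / 2 + t * I)) := by
  rw [continuous_iff_continuousAt]
  intro t
  have hne : ((1 / 2 : ℂ) + t * I) ≠ 1 := by
    intro h
    have := congrArg Complex.re h
    simp at this
  exact ContinuousAt.comp (f := fun t : ℝ => (1 / 2 : ℂ) + t * I)
    (differentiableAt_riemannZeta hne).continuousAt (by fun_prop)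

theorem cont_fk (k : ℕ) : Continuous (fun t : ℝ => fk k (1 / 2 + t * I)) := by
  unfold fk
  exact (cont_zeta_line.pow k).sub continuous_const

/-- extension of a bound from large positive `t` to all real `t` -/
theorem extend_bound {β δ C1 T1 : ℝ} (hβ : 0 ≤ β) (hδ0 : 0 < δ) (hδ1 : δ < 1 / 4) (hC : 0 ≤ C1)
    (hT1 : 1 ≤ T1)
    (h : ∀ s : ℂ, s.re = 1 / 2 + δ → T1 ≤ s.im → ‖riemannZeta s‖ ≤ C1 * s.im ^ β) :
    ∃ C : ℝ, ∀ t : ℝ, ‖riemannZeta ((1 / 2 + δ : ℝ) + t * I)‖ ≤ C * (1 + |t|) ^ β := by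
  refine ⟨C1 + 9 * (1 + T1), ?_⟩
  have hpos : ∀ t : ℝ, 0 ≤ t → ‖riemannZeta ((1 / 2 + δ : ℝ) + t * I)‖ ≤ (C1 + 9 * (1 + T1)) * (1 + |t|) ^ β := by
    intro t ht
    have h1 : (1:ℝ) ≤ (1 + |t|) ^ β := Real.one_le_rpow (by linarith [abs_nonneg t]) hβ
    rcases le_total T1 t with h2 | h2
    · have h3 := h ((1 / 2 + δ : ℝ) + t * I) (by simp) (by simpa using h2)
      have e : (((1 / 2 + δ : ℝ) : ℂ) + t * I).im = t := by simp
      rw [e] at h3
      have h4 : t ^ β ≤ (1 + |t|) ^ β := by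
        apply Real.rpow_le_rpow ht _ hβ
        rw [abs_of_nonneg ht]; linarith
      nlinarith [Real.rpow_nonneg ht β]
    · have h3 := zeta_growth' (s := (1 / 2 + δ : ℝ) + t * I) (by simp; linarith) (by simp; linarith)
      have e : (((1 / 2 + δ : ℝ) : ℂ) + t * I).im = t := by simp
      rw [e, abs_of_nonneg ht] at h3
      nlinarith
  intro t
  rcases le_total 0 t with h1 | h1
  · exact hpos t h1
  · have h2 := hpos (-t) (by linarith)
    have e : (((1 / 2 + δ : ℝ) : ℂ) + ((-t : ℝ) : ℂ) * I) = (starRingEnd ℂ) (((1 / 2 + δ : ℝ) : ℂ) + t * I) := by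
      apply Complex.ext <;> simp
    rw [e, riemannZeta_conj, Complex.norm_conj, abs_neg] at h2
    exact h2

/-- the bound for zeta in the half strip from the critical line -/
theorem zeta_strip {β C : ℝ} (hβ : 0 ≤ β) (hC : 0 ≤ C)
    (h : ∀ t : ℝ, ‖riemannZeta (1 / 2 + t * I)‖ ≤ C * (1 + |t|) ^ β) :
    ∃ M : ℝ, 0 < M ∧ ∀ s : ℂ, 1 / 2 ≤ s.re → s.re ≤ 2 → 1 ≤ s.im → ‖riemannZeta s‖ ≤ M * ‖s‖ ^ β := by
  obtain ⟨D, hD0, hD⟩ := zeta_sub_one
  set M : ℝ := C * 2 ^ β + (1 + D) + 18 with hM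
  have hMpos : 0 < M := by positivity
  refine ⟨M, hMpos, ?_⟩
  have hsn : ∀ s ∈ HS (1 / 2) 2 1, 1 ≤ ‖s‖ := fun s hs => hs.2.2.trans (Complex.im_le_norm s)
  have hVn : ∀ s ∈ HS (1 / 2) 2 1, ‖V β s‖ = ‖s‖ ^ β := by
    intro s hs
    apply V_norm
    intro h; have := hsn s hs; rw [h] at this; norm_num at this
  have key : ∀ s ∈ HS (1 / 2) 2 1, ‖riemannZeta s / V β s‖ ≤ M := by
    apply pl_half (by norm_num) _ hMpos
    · intro s hs hs1
      rw [norm_div, hVn s hs, div_le_iff₀ (by have := hsn s hs; positivity)]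
      have e1 : s = 1 / 2 + (s.im : ℂ) * I := by
        apply Complex.ext
        · simp [hs1]
        · simp
      have h1 := h s.im
      rw [← e1] at h1
      have h2 : (1 + |s.im|) ^ β ≤ 2 ^ β * ‖s‖ ^ β := by
        rw [← Real.mul_rpow (by norm_num) (norm_nonneg _)]
        apply Real.rpow_le_rpow (by positivity) _ hβ
        have := Complex.abs_im_le_norm s
        have := hsn s hs
        linarith
      have h3 : (0:ℝ) ≤ ‖s‖ ^ β := by positivity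
      calc ‖riemannZeta s‖ ≤ C * (1 + |s.im|) ^ β := h1
        _ ≤ C * (2 ^ β * ‖s‖ ^ β) := mul_le_mul_of_nonneg_left h2 hC
        _ ≤ M * ‖s‖ ^ β := by
            rw [hM]
            nlinarith
    · intro s hs hs2
      rw [norm_div, hVn s hs, div_le_iff₀ (by have := hsn s hs; positivity)]
      have h1 := hD s hs2.ge
      have h2 : Real.exp (-s.re / 2) ≤ 1 := by
        rw [Real.exp_le_one_iff, hs2]; norm_num
      have h3 : ‖riemannZeta s‖ ≤ 1 + D := by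
        calc ‖riemannZeta s‖ = ‖1 + (riemannZeta s - 1)‖ := by congr 1; ring
          _ ≤ ‖(1:ℂ)‖ + ‖riemannZeta s - 1‖ := norm_add_le _ _
          _ ≤ 1 + D := by
            rw [norm_one]
            nlinarith
      have h4 : (1:ℝ) ≤ ‖s‖ ^ β := Real.one_le_rpow (hsn s hs) hβ
      have h5 : 0 ≤ C * 2 ^ β := by positivity
      nlinarith
    · intro s hs hs3
      rw [norm_div, hVn s hs, div_le_iff₀ (by have := hsn s hs; positivity)]
      have h1 := zeta_growth (s := s) (by linarith [hs.1]) hs.2.2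
      have h2 := Complex.norm_le_abs_re_add_abs_im s
      rw [hs3, abs_of_pos (by linarith [hs.1] : 0 < s.re), abs_one] at h2
      have h4 : (1:ℝ) ≤ ‖s‖ ^ β := Real.one_le_rpow (hsn s hs) hβ
      have h5 : 0 ≤ C * 2 ^ β := by positivity
      have h6 := hs.2.1
      nlinarith
    · refine ⟨18, 1, fun s hs => ?_⟩
      rw [norm_div, hVn s hs]
      have h1 := zeta_growth (s := s) (by linarith [hs.1]) hs.2.2
      have h2 := Complex.norm_le_abs_re_add_abs_im s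
      rw [abs_of_pos (by linarith [hs.1] : 0 < s.re)] at h2
      have h4 : (1:ℝ) ≤ ‖s‖ ^ β := Real.one_le_rpow (hsn s hs) hβ
      have h6 := hs.2.1
      have h7 := abs_nonneg s.im
      calc ‖riemannZeta s‖ / ‖s‖ ^ β ≤ ‖riemannZeta s‖ := div_le_self (norm_nonneg _) h4
        _ ≤ 18 * (1 + |s.im|) ^ 1 := by rw [pow_one]; linarith
        _ ≤ 18 * (1 + |s.im|) ^ 1 + 1 := by linarith
        _ ≤ Real.exp (18 * (1 + |s.im|) ^ 1) := Real.add_one_le_exp _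
    · intro s hs
      have hsi : 0 < s.im := by have := hs.2.2; linarith
      apply DifferentiableAt.div (diffAt_zeta_im hsi) (V_diff hsi)
      unfold V
      exact Complex.exp_ne_zero _
  intro s h1 h2 h3
  have hs : s ∈ HS (1 / 2) 2 1 := ⟨h1, h2, h3⟩
  have h4 := key s hs
  rw [norm_div, hVn s hs, div_le_iff₀ (by have := hsn s hs; positivity)] at h4
  exact h4

/-- the error term in the `k`-th signed moment, from `1` -/
noncomputable def EE (k : ℕ) (T : ℝ) : ℂ := ∫ t in (1:ℝ)..T, fk k (1 / 2 + t * I)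

theorem EE_eq {k : ℕ} {G : ℂ → ℂ} (hG : ∀ s : ℂ, 0 < s.im → HasDerivAt G (fk k s) s) {T : ℝ}
    (hT : 1 ≤ T) : EE k T = -I * (G (1 / 2 + T * I) - G (1 / 2 + I)) := by
  unfold EE
  have hder : ∀ t ∈ uIcc 1 T, HasDerivAt (fun t : ℝ => -I * G (1 / 2 + t * I)) (fk k (1 / 2 + t * I)) t := by
    intro t ht
    rw [uIcc_of_le hT] at ht
    have h1 : HasDerivAt (fun z : ℂ => 1 / 2 + z * I) (1 * I) (t : ℂ) :=
      ((hasDerivAt_id _).mul_const I).const_add _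
    have h2 : HasDerivAt G (fk k (1 / 2 + t * I)) ((1 / 2 : ℂ) + t * I) := hG _ (by
      have := ht.1
      simp
      linarith)
    have h3 := ((h2.comp (t : ℂ) h1).comp_ofReal).const_mul (-I)
    have e : -I * (fk k (1 / 2 + t * I) * (1 * I)) = fk k (1 / 2 + t * I) := by
      have : -I * (fk k (1 / 2 + t * I) * (1 * I)) = -(I * I) * fk k (1 / 2 + t * I) := by ring
      rw [this, Complex.I_mul_I]
      ring
    rw [e] at h3
    exact h3
  rw [intervalIntegral.integral_eq_sub_of_hasDerivAt hder ((cont_fk k).intervalIntegrable _ _)]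
  push_cast
  ring_nf

/-- (i) => (ii) -/
theorem EE_upper {k : ℕ} {β C : ℝ} (hβ : 0 ≤ β) (hC : 0 ≤ C)
    (h : ∀ t : ℝ, ‖riemannZeta (1 / 2 + t * I)‖ ≤ C * (1 + |t|) ^ β) :
    ∃ C' : ℝ, 0 ≤ C' ∧ ∀ T : ℝ, 1 ≤ T → ‖EE k T‖ ≤ C' * T ^ (k * β) := by
  obtain ⟨G, hG, B, hB0, hB1, hB2, hB3⟩ := exists_prim k
  obtain ⟨M, hM0, hM⟩ := zeta_strip hβ hC h
  refine ⟨‖G (1 / 2 + I)‖ + B + 2 * ((M * 3 ^ β) ^ k + 1), by positivity, fun T hT => ?_⟩
  rw [EE_eq hG hT, norm_mul, norm_neg, Complex.norm_I, one_mul]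
  have hTb : (1:ℝ) ≤ T ^ (k * β) := Real.one_le_rpow hT (by positivity)
  have h1 := hB3 (((M * 3 ^ β) ^ k + 1) * T ^ (k * β)) (1 / 2 + T * I) (by simp) (by simp; norm_num) (by simpa using hT) (by
    intro z hz1 hz2 hz3
    have e : ((1 / 2 : ℂ) + T * I).im = T := by simp
    rw [e] at hz3
    have h2 := hM z hz1 hz2 (by rw [hz3]; exact hT)
    have h3 : ‖z‖ ≤ 3 * T := by
      have h4 := Complex.norm_le_abs_re_add_abs_im z
      rw [hz3, abs_of_pos (by linarith : 0 < z.re), abs_of_pos (by linarith : 0 < T)] at h4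
      linarith
    have h5 : ‖z‖ ^ β ≤ 3 ^ β * T ^ β := by
      rw [← Real.mul_rpow (by norm_num) (by linarith)]
      exact Real.rpow_le_rpow (norm_nonneg _) h3 hβ
    unfold fk
    calc ‖riemannZeta z ^ k - 1‖ ≤ ‖riemannZeta z ^ k‖ + ‖(1:ℂ)‖ := norm_sub_le _ _
      _ ≤ (M * 3 ^ β * T ^ β) ^ k + 1 := by
          rw [norm_pow, norm_one]
          gcongr
          calc ‖riemannZeta z‖ ≤ M * ‖z‖ ^ β := h2
            _ ≤ M * (3 ^ β * T ^ β) := mul_le_mul_of_nonneg_left h5 hM0.le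
            _ = _ := by ring
      _ = (M * 3 ^ β) ^ k * T ^ (k * β) + 1 := by
          rw [mul_pow, ← Real.rpow_natCast (T ^ β) k, ← Real.rpow_mul (by linarith), mul_comm β]
      _ ≤ ((M * 3 ^ β) ^ k + 1) * T ^ (k * β) := by nlinarith)
  have h6 : 0 ≤ ‖G (1 / 2 + I)‖ + B := by positivity
  calc ‖G (1 / 2 + T * I) - G (1 / 2 + I)‖ ≤ ‖G (1 / 2 + T * I)‖ + ‖G (1 / 2 + I)‖ := norm_sub_le _ _
    _ ≤ (B + 2 * (((M * 3 ^ β) ^ k + 1) * T ^ (k * β))) + ‖G (1 / 2 + I)‖ := by linarith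
    _ ≤ _ := by nlinarith

/-- (iii) => (i) -/
theorem zeta_of_one_sided {k : ℕ} (hk : 0 < k) {ω : ℂ} (hω : ω ≠ 0) {b C : ℝ} (hb : 0 ≤ b)
    (hC : 0 ≤ C) (h : ∀ T : ℝ, 1 ≤ T → (ω * EE k T).re ≤ C * T ^ b) :
    ∀ ε : ℝ, 0 < ε → ∃ C : ℝ, ∀ t : ℝ,
      ‖riemannZeta (1 / 2 + t * I)‖ ≤ C * (1 + |t|) ^ (b / k + ε) := by
  obtain ⟨G, hG, B, hB0, hB1, hB2, hB3⟩ := exists_prim k
  have hkr : (0:ℝ) < k := by exact_mod_cast hk
  apply to_critical (by positivity)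
  intro δ hδ0 hδ1
  have hos : ∀ T : ℝ, 1 ≤ T → ((ω * -I) * G (1 / 2 + T * I)).re ≤ (C + ‖ω * -I * G (1 / 2 + I)‖) * T ^ b := by
    intro T hT
    have h1 := h T hT
    rw [EE_eq hG hT] at h1
    have e : ω * -I * G (1 / 2 + T * I) = ω * (-I * (G (1 / 2 + T * I) - G (1 / 2 + I))) +
        ω * -I * G (1 / 2 + I) := by ring
    rw [e, Complex.add_re]
    have h2 := Complex.re_le_norm (ω * -I * G (1 / 2 + I))
    have h3 : (1:ℝ) ≤ T ^ b := Real.one_le_rpow hT hb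
    have h4 := norm_nonneg (ω * -I * G (1 / 2 + I))
    nlinarith
  obtain ⟨C1, T1, hC1, hT1, h1⟩ := one_sided_two_sided (g := G) (fun s hs => (hG s hs).differentiableAt)
    hB0 hB1 hB2 (ω * -I) (by simp [hω]) hb (by positivity) hos hδ0 hδ1
  apply extend_bound (C1 := (C1 + 1) ^ (1 / (k:ℝ))) (T1 := T1) (by positivity) hδ0 hδ1 (by positivity) hT1
  intro s hs1 hs2
  have h2 := (h1 s hs1 hs2).2
  have hsT : 1 ≤ s.im := hT1.trans hs2
  rw [(hG s (by linarith)).deriv] at h2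
  have h3 : ‖riemannZeta s‖ ^ k ≤ (C1 + 1) * s.im ^ b := by
    have h4 : riemannZeta s ^ k = 1 + fk k s := by unfold fk; ring
    rw [← norm_pow, h4]
    have h5 : (1:ℝ) ≤ s.im ^ b := Real.one_le_rpow hsT hb
    calc ‖1 + fk k s‖ ≤ ‖(1:ℂ)‖ + ‖fk k s‖ := norm_add_le _ _
      _ ≤ 1 + C1 * s.im ^ b := by rw [norm_one]; linarith
      _ ≤ (C1 + 1) * s.im ^ b := by linarith
  have h6 : ‖riemannZeta s‖ = (‖riemannZeta s‖ ^ k) ^ (1 / (k:ℝ)) := by
    rw [← Real.rpow_natCast, ← Real.rpow_mul (norm_nonneg _), mul_one_div_cancel hkr.ne', Real.rpow_one]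
  rw [h6]
  calc (‖riemannZeta s‖ ^ k) ^ (1 / (k:ℝ)) ≤ ((C1 + 1) * s.im ^ b) ^ (1 / (k:ℝ)) :=
        Real.rpow_le_rpow (by positivity) h3 (by positivity)
    _ = (C1 + 1) ^ (1 / (k:ℝ)) * s.im ^ (b / k) := by
        rw [Real.mul_rpow (by positivity) (by positivity), ← Real.rpow_mul (by linarith)]
        congr 2
        ring

/-- one-sided Lindelof -/
theorem zeta_one_sided {ω : ℂ} (hω : ω ≠ 0) {b C : ℝ} (hb : 0 ≤ b)
    (hC : 0 ≤ C) (h : ∀ T : ℝ, 1 ≤ T → (ω * riemannZeta (1 / 2 + T * I)).re ≤ C * T ^ b) :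
    ∀ ε : ℝ, 0 < ε → ∃ C : ℝ, ∀ t : ℝ,
      ‖riemannZeta (1 / 2 + t * I)‖ ≤ C * (1 + |t|) ^ (b + ε) := by
  apply to_critical hb
  intro δ hδ0 hδ1
  obtain ⟨D, hD0, hD⟩ := zeta_sub_one
  have hr : ∀ s : ℂ, 2 ≤ s.re → ‖riemannZeta s‖ ≤ 1 + D := by
    intro s hs
    have h1 := hD s hs
    have h2 : Real.exp (-s.re / 2) ≤ 1 := by
      rw [Real.exp_le_one_iff]; linarith
    calc ‖riemannZeta s‖ = ‖1 + (riemannZeta s - 1)‖ := by congr 1; ring
      _ ≤ ‖(1:ℂ)‖ + ‖riemannZeta s - 1‖ := norm_add_le _ _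
      _ ≤ 1 + D := by
        rw [norm_one]
        nlinarith
  obtain ⟨C1, T1, hC1, hT1, h1⟩ := one_sided_two_sided (g := riemannZeta)
    (fun s hs => diffAt_zeta_im hs) (B := 6 * (1 + D)) (N := 1) (by positivity)
    (fun s hs _ => (hr s hs).trans (by linarith))
    (fun s hs1 hs2 hs3 => by
      have := zeta_growth (s := s) (by linarith) hs3
      rw [pow_one]
      have h5 := norm_nonneg s
      nlinarith) ω hω hb hC h hδ0 hδ1
  exact extend_bound hb hδ0 hδ1 hC1 hT1 (fun s hs1 hs2 => (h1 s hs1 hs2).1)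

end Pool.Agent.H388LH
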