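import Mathlib
import Pool.Agent.H388LH.Fin

open Complex Filter Topology Set MeasureTheory

namespace Pool.Agent.H388LH

theorem parts {f : ℝ → ℂ} (hf : Continuous f) (w : ℝ) {X : ℝ} (hX : 1 ≤ X) :
    ∫ t in (1:ℝ)..X, f t * ((t ^ w : ℝ) : ℂ) =
      (∫ t in (1:ℝ)..X, f t) * ((X ^ w : ℝ) : ℂ) -
        ∫ t in (1:ℝ)..X, (∫ u in (1:ℝ)..t, f u) * ((w * t ^ (w - 1) : ℝ) : ℂ) := by
  have h := intervalIntegral.integral_mul_deriv_eq_deriv_mul (a := 1) (b := X)
    (u := fun t : ℝ => ((t ^ w : ℝ) : ℂ)) (u' := fun t : ℝ => ((w * t ^ (w - 1) : ℝ) : ℂ))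
    (v := fun t : ℝ => ∫ u in (1:ℝ)..t, f u) (v' := f)
    (by
      intro x hx
      rw [uIcc_of_le hX] at hx
      have hx0 : x ≠ 0 := by
        have := hx.1
        linarith
      have h1 : HasDerivAt (fun t : ℝ => t ^ w) (w * x ^ (w - 1)) x :=
        Real.hasDerivAt_rpow_const (Or.inl hx0)
      exact h1.ofReal_comp)
    (by
      intro x _
      exact (hf.integral_hasStrictDerivAt 1 x).hasDerivAt)
    (by
      apply ContinuousOn.intervalIntegrable
      rw [uIcc_of_le hX]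
      apply Complex.continuous_ofReal.comp_continuousOn
      apply ContinuousOn.mul continuousOn_const
      apply ContinuousOn.rpow_const continuousOn_id
      intro x hx
      left
      have := hx.1
      simp only [id]
      linarith)
    (hf.intervalIntegrable _ _)
  have e1 : ∫ t in (1:ℝ)..X, f t * ((t ^ w : ℝ) : ℂ) = ∫ t in (1:ℝ)..X, ((t ^ w : ℝ) : ℂ) * f t := by
    congr 1
    ext t
    ring
  have e2 : ∫ t in (1:ℝ)..X, (∫ u in (1:ℝ)..t, f u) * ((w * t ^ (w - 1) : ℝ) : ℂ) =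
      ∫ t in (1:ℝ)..X, ((w * t ^ (w - 1) : ℝ) : ℂ) * (∫ u in (1:ℝ)..t, f u) := by
    congr 1
    ext t
    ring
  rw [e1, e2, h]
  simp
  ring

/-- `∫_1^X w t^(w-1) dt = X^w - 1` -/
theorem int_pow {w : ℝ} (hw : 0 < w) {X : ℝ} (hX : 1 ≤ X) :
    ∫ t in (1:ℝ)..X, w * t ^ (w - 1) = X ^ w - 1 := by
  rw [intervalIntegral.integral_const_mul, integral_rpow (Or.inl (by linarith))]
  have : w - 1 + 1 = w := by ring
  rw [this, Real.one_rpow]
  field_simp

/-- convergence of the Mellin integral bounds the partial integrals -/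
theorem bound_of_conv {f : ℝ → ℂ} (hf : Continuous f) {w : ℝ} (hw : 0 < w)
    (h : ∃ L : ℂ, Tendsto (fun X : ℝ => ∫ t in (1:ℝ)..X, f t * ((t ^ (-w) : ℝ) : ℂ)) atTop (𝓝 L)) :
    ∃ C : ℝ, 0 ≤ C ∧ ∀ X : ℝ, 1 ≤ X → ‖∫ t in (1:ℝ)..X, f t‖ ≤ C * X ^ w := by
  obtain ⟨L, hL⟩ := h
  set g : ℝ → ℂ := fun t => f t * (((max t 1) ^ (-w) : ℝ) : ℂ) with hg
  have hgc : Continuous g := by
    rw [hg]
    apply hf.mul
    apply Complex.continuous_ofReal.comp
    apply Continuous.rpow_const (by fun_prop)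
    intro x
    left
    have := le_max_right x 1
    linarith
  have hfg : ∀ X : ℝ, 1 ≤ X → ∫ t in (1:ℝ)..X, f t * ((t ^ (-w) : ℝ) : ℂ) = ∫ t in (1:ℝ)..X, g t := by
    intro X hX
    apply intervalIntegral.integral_congr
    intro t ht
    rw [uIcc_of_le hX] at ht
    simp only [hg]
    rw [max_eq_left ht.1]
  set A : ℝ → ℂ := fun X => ∫ t in (1:ℝ)..X, g t with hA
  have hAc : Continuous A := by
    rw [continuous_iff_continuousAt]
    intro x
    exact (hgc.integral_hasStrictDerivAt 1 x).hasDerivAt.continuousAt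
  have hAL : Tendsto A atTop (𝓝 L) := by
    refine hL.congr' ?_
    filter_upwards [eventually_ge_atTop 1] with X hX
    exact hfg X hX
  obtain ⟨X0, hX0⟩ : ∃ X0, ∀ X ≥ X0, ‖A X‖ ≤ ‖L‖ + 1 := by
    have h1 := hAL.norm.eventually (gt_mem_nhds (by linarith : ‖L‖ < ‖L‖ + 1))
    obtain ⟨X0, h2⟩ := eventually_atTop.1 h1
    exact ⟨X0, fun X hX => (h2 X hX).le⟩
  obtain ⟨D0, hD0⟩ := (isCompact_Icc (a := (1:ℝ)) (b := X0)).exists_bound_of_continuousOn hAc.continuousOn
  set D : ℝ := max D0 (‖L‖ + 1) with hD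
  have hDpos : 0 < D := lt_max_of_lt_right (by positivity)
  have hAD : ∀ X : ℝ, 1 ≤ X → ‖A X‖ ≤ D := by
    intro X hX
    rcases le_total X X0 with h1 | h1
    · exact (hD0 X ⟨hX, h1⟩).trans (le_max_left _ _)
    · exact (hX0 X h1).trans (le_max_right _ _)
  refine ⟨2 * D, by positivity, fun X hX => ?_⟩
  have h1 : ∫ t in (1:ℝ)..X, f t = ∫ t in (1:ℝ)..X, g t * ((t ^ w : ℝ) : ℂ) := by
    apply intervalIntegral.integral_congr
    intro t ht
    rw [uIcc_of_le hX] at ht
    simp only [hg]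
    rw [max_eq_left ht.1, mul_assoc, ← Complex.ofReal_mul, ← Real.rpow_add (by linarith [ht.1]),
      neg_add_cancel, Real.rpow_zero]
    simp
  rw [h1, parts hgc w hX]
  have h2 : ‖∫ t in (1:ℝ)..X, (∫ u in (1:ℝ)..t, g u) * ((w * t ^ (w - 1) : ℝ) : ℂ)‖ ≤
      ∫ t in (1:ℝ)..X, D * (w * t ^ (w - 1)) := by
    apply intervalIntegral.norm_integral_le_of_norm_le hX
    · refine Filter.Eventually.of_forall (fun t ht => ?_)
      have ht1 : 1 ≤ t := ht.1.le
      rw [norm_mul, Complex.norm_real, Real.norm_of_nonneg (by positivity)]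
      apply mul_le_mul_of_nonneg_right (hAD t ht1) (by positivity)
    · apply ContinuousOn.intervalIntegrable
      rw [uIcc_of_le hX]
      apply ContinuousOn.mul continuousOn_const
      apply ContinuousOn.mul continuousOn_const
      apply ContinuousOn.rpow_const continuousOn_id
      intro x hx
      left
      have := hx.1
      simp only [id]
      linarith
  rw [intervalIntegral.integral_const_mul, int_pow hw hX] at h2
  have h3 : ‖(∫ t in (1:ℝ)..X, g t) * ((X ^ w : ℝ) : ℂ)‖ ≤ D * X ^ w := by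
    rw [norm_mul, Complex.norm_real, Real.norm_of_nonneg (by positivity)]
    exact mul_le_mul_of_nonneg_right (hAD X hX) (by positivity)
  calc _ ≤ ‖(∫ t in (1:ℝ)..X, g t) * ((X ^ w : ℝ) : ℂ)‖ +
        ‖∫ t in (1:ℝ)..X, (∫ u in (1:ℝ)..t, g u) * ((w * t ^ (w - 1) : ℝ) : ℂ)‖ := norm_sub_le _ _
    _ ≤ D * X ^ w + D * (X ^ w - 1) := add_le_add h3 h2
    _ ≤ 2 * D * X ^ w := by nlinarith

/-- bounds for the partial integrals give convergence of the Mellin integral -/
theorem conv_of_bound {f : ℝ → ℂ} (hf : Continuous f) {w b C : ℝ} (hb : b < w) (hw : 0 < w)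
    (h : ∀ X : ℝ, 1 ≤ X → ‖∫ t in (1:ℝ)..X, f t‖ ≤ C * X ^ b) :
    ∃ L : ℂ, Tendsto (fun X : ℝ => ∫ t in (1:ℝ)..X, f t * ((t ^ (-w) : ℝ) : ℂ)) atTop (𝓝 L) := by
  set E : ℝ → ℂ := fun t => ∫ u in (1:ℝ)..t, f u with hE
  have hEc : Continuous E := by
    rw [continuous_iff_continuousAt]
    intro x
    exact (hf.integral_hasStrictDerivAt 1 x).hasDerivAt.continuousAt
  have h1 : Tendsto (fun X : ℝ => E X * ((X ^ (-w) : ℝ) : ℂ)) atTop (𝓝 0) := by
    apply squeeze_zero_norm' (a := fun X : ℝ => C * X ^ (b - w))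
    · filter_upwards [eventually_ge_atTop 1] with X hX
      rw [norm_mul, Complex.norm_real, Real.norm_of_nonneg (by positivity), sub_eq_add_neg,
        Real.rpow_add (by linarith), ← mul_assoc]
      exact mul_le_mul_of_nonneg_right (h X hX) (by positivity)
    · have := tendsto_rpow_neg_atTop (y := w - b) (by linarith)
      have h2 := this.const_mul C
      simp only [mul_zero, neg_sub] at h2
      exact h2
  have hint : IntegrableOn (fun t : ℝ => E t * ((-w * t ^ (-w - 1) : ℝ) : ℂ)) (Ioi 1) := by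
    have h3 : IntegrableOn (fun t : ℝ => C * w * t ^ (b - w - 1)) (Ioi 1) :=
      (integrableOn_Ioi_rpow_of_lt (by linarith) one_pos).const_mul _
    apply Integrable.mono' h3
    · apply ContinuousOn.aestronglyMeasurable _ measurableSet_Ioi
      apply hEc.continuousOn.mul
      apply Complex.continuous_ofReal.comp_continuousOn
      apply ContinuousOn.mul continuousOn_const
      apply ContinuousOn.rpow_const continuousOn_id
      intro x hx
      left
      have : (1:ℝ) < x := hx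
      simp only [id]
      linarith
    · rw [ae_restrict_iff' measurableSet_Ioi]
      refine Filter.Eventually.of_forall (fun t ht => ?_)
      have ht1 : (1:ℝ) < t := ht
      have ht0 : (0:ℝ) < t := by linarith
      rw [norm_mul, Complex.norm_real, Real.norm_eq_abs, abs_mul, abs_neg, abs_of_pos hw,
        abs_of_pos (by positivity)]
      have e : t ^ (b - w - 1) = t ^ b * t ^ (-w - 1) := by
        rw [← Real.rpow_add ht0]; congr 1; ring
      rw [e]
      calc ‖E t‖ * (w * t ^ (-w - 1)) ≤ (C * t ^ b) * (w * t ^ (-w - 1)) :=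
            mul_le_mul_of_nonneg_right (h t ht1.le) (by positivity)
        _ = C * w * (t ^ b * t ^ (-w - 1)) := by ring
  have h4 := intervalIntegral_tendsto_integral_Ioi (1:ℝ) hint tendsto_id
  refine ⟨0 - ∫ t in Ioi (1:ℝ), E t * ((-w * t ^ (-w - 1) : ℝ) : ℂ), ?_⟩
  refine (h1.sub h4).congr' ?_
  filter_upwards [eventually_ge_atTop 1] with X hX
  rw [parts hf (-w) hX]
  rfl

end Pool.Agent.H388LH
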